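import Pool.Agent.Helper58.PLK.BaseDef
import Pool.Agent.Helper58.PLK.Mode
import Pool.Agent.Helper58.PLK.Halves
import Pool.Agent.Helper58.PLK.A5n.Da0
import Pool.Agent.Helper58.PLK.A5n.Da1
import Pool.Agent.Helper58.PLK.A5n.Da2

/-!
# Database of the case A5n (generated)
-/

set_option maxRecDepth 100000

namespace Pool.Agent.Helper58.PLK.A5n

noncomputable section

def t_0 : DT := (.node (.node (.node (.node (.node (.leaf A0) (.leaf A512)) (.node (.leaf A256) (.leaf A0))) (.node (.node (.leaf A128) (.leaf A0)) (.node (.leaf A384) (.leaf A0)))) (.node (.node (.node (.leaf A64) (.leaf A576)) (.node (.leaf A320) (.leaf A0))) (.node (.node (.leaf A192) (.leaf A0)) (.node (.leaf A448) (.leaf A0))))) (.node (.node (.node (.node (.leaf A32) (.leaf A544)) (.node (.leaf A288) (.leaf A0))) (.node (.node (.leaf A160) (.leaf A0)) (.node (.leaf A416) (.leaf A0)))) (.node (.node (.node (.leaf A96) (.leaf A608)) (.node (.leaf A352) (.leaf A0))) (.node (.node (.leaf A224) (.leaf A0)) (.node (.leaf A480) (.leaf A0))))))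
def t_16 : DT := (.node (.node (.node (.node (.node (.leaf A16) (.leaf A528)) (.node (.leaf A272) (.leaf A0))) (.node (.node (.leaf A144) (.leaf A0)) (.node (.leaf A400) (.leaf A0)))) (.node (.node (.node (.leaf A80) (.leaf A592)) (.node (.leaf A336) (.leaf A0))) (.node (.node (.leaf A208) (.leaf A0)) (.node (.leaf A464) (.leaf A0))))) (.node (.node (.node (.node (.leaf A48) (.leaf A560)) (.node (.leaf A304) (.leaf A0))) (.node (.node (.leaf A176) (.leaf A0)) (.node (.leaf A432) (.leaf A0)))) (.node (.node (.node (.leaf A112) (.leaf A0)) (.node (.leaf A368) (.leaf A0))) (.node (.node (.leaf A240) (.leaf A0)) (.node (.leaf A496) (.leaf A0))))))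
def t_8 : DT := (.node (.node (.node (.node (.node (.leaf A8) (.leaf A520)) (.node (.leaf A264) (.leaf A0))) (.node (.node (.leaf A136) (.leaf A0)) (.node (.leaf A392) (.leaf A0)))) (.node (.node (.node (.leaf A72) (.leaf A584)) (.node (.leaf A328) (.leaf A0))) (.node (.node (.leaf A200) (.leaf A0)) (.node (.leaf A456) (.leaf A0))))) (.node (.node (.node (.node (.leaf A40) (.leaf A552)) (.node (.leaf A296) (.leaf A0))) (.node (.node (.leaf A168) (.leaf A0)) (.node (.leaf A424) (.leaf A0)))) (.node (.node (.node (.leaf A104) (.leaf A0)) (.node (.leaf A360) (.leaf A0))) (.node (.node (.leaf A232) (.leaf A0)) (.node (.leaf A488) (.leaf A0))))))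
def t_24 : DT := (.node (.node (.node (.node (.node (.leaf A24) (.leaf A536)) (.node (.leaf A280) (.leaf A0))) (.node (.node (.leaf A152) (.leaf A0)) (.node (.leaf A408) (.leaf A0)))) (.node (.node (.node (.leaf A88) (.leaf A600)) (.node (.leaf A344) (.leaf A0))) (.node (.node (.leaf A216) (.leaf A0)) (.node (.leaf A472) (.leaf A0))))) (.node (.node (.node (.node (.leaf A56) (.leaf A568)) (.node (.leaf A312) (.leaf A0))) (.node (.node (.leaf A184) (.leaf A0)) (.node (.leaf A440) (.leaf A0)))) (.node (.node (.node (.leaf A120) (.leaf A0)) (.node (.leaf A376) (.leaf A0))) (.node (.node (.leaf A248) (.leaf A0)) (.node (.leaf A504) (.leaf A0))))))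
def t_4 : DT := (.node (.node (.node (.node (.node (.leaf A4) (.leaf A516)) (.node (.leaf A260) (.leaf A0))) (.node (.node (.leaf A132) (.leaf A0)) (.node (.leaf A388) (.leaf A0)))) (.node (.node (.node (.leaf A68) (.leaf A580)) (.node (.leaf A324) (.leaf A0))) (.node (.node (.leaf A196) (.leaf A0)) (.node (.leaf A452) (.leaf A0))))) (.node (.node (.node (.node (.leaf A36) (.leaf A548)) (.node (.leaf A292) (.leaf A0))) (.node (.node (.leaf A164) (.leaf A0)) (.node (.leaf A420) (.leaf A0)))) (.node (.node (.node (.leaf A100) (.leaf A0)) (.node (.leaf A356) (.leaf A0))) (.node (.node (.leaf A228) (.leaf A0)) (.node (.leaf A484) (.leaf A0))))))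
def t_20 : DT := (.node (.node (.node (.node (.node (.leaf A20) (.leaf A532)) (.node (.leaf A276) (.leaf A0))) (.node (.node (.leaf A148) (.leaf A0)) (.node (.leaf A404) (.leaf A0)))) (.node (.node (.node (.leaf A84) (.leaf A596)) (.node (.leaf A340) (.leaf A0))) (.node (.node (.leaf A212) (.leaf A0)) (.node (.leaf A468) (.leaf A0))))) (.node (.node (.node (.node (.leaf A52) (.leaf A564)) (.node (.leaf A308) (.leaf A0))) (.node (.node (.leaf A180) (.leaf A0)) (.node (.leaf A436) (.leaf A0)))) (.node (.node (.node (.leaf A116) (.leaf A0)) (.node (.leaf A372) (.leaf A0))) (.node (.node (.leaf A244) (.leaf A0)) (.node (.leaf A500) (.leaf A0))))))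
def t_12 : DT := (.node (.node (.node (.node (.node (.leaf A12) (.leaf A524)) (.node (.leaf A268) (.leaf A0))) (.node (.node (.leaf A140) (.leaf A0)) (.node (.leaf A396) (.leaf A0)))) (.node (.node (.node (.leaf A76) (.leaf A588)) (.node (.leaf A332) (.leaf A0))) (.node (.node (.leaf A204) (.leaf A0)) (.node (.leaf A460) (.leaf A0))))) (.node (.node (.node (.node (.leaf A44) (.leaf A556)) (.node (.leaf A300) (.leaf A0))) (.node (.node (.leaf A172) (.leaf A0)) (.node (.leaf A428) (.leaf A0)))) (.node (.node (.node (.leaf A108) (.leaf A0)) (.node (.leaf A364) (.leaf A0))) (.node (.node (.leaf A236) (.leaf A0)) (.node (.leaf A492) (.leaf A0))))))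
def t_28 : DT := (.node (.node (.node (.node (.node (.leaf A28) (.leaf A540)) (.node (.leaf A284) (.leaf A0))) (.node (.node (.leaf A156) (.leaf A0)) (.node (.leaf A412) (.leaf A0)))) (.node (.node (.node (.leaf A92) (.leaf A604)) (.node (.leaf A348) (.leaf A0))) (.node (.node (.leaf A220) (.leaf A0)) (.node (.leaf A476) (.leaf A0))))) (.node (.node (.node (.node (.leaf A60) (.leaf A572)) (.node (.leaf A316) (.leaf A0))) (.node (.node (.leaf A188) (.leaf A0)) (.node (.leaf A444) (.leaf A0)))) (.node (.node (.node (.leaf A124) (.leaf A0)) (.node (.leaf A380) (.leaf A0))) (.node (.node (.leaf A252) (.leaf A0)) (.node (.leaf A508) (.leaf A0))))))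
def t_2 : DT := (.node (.node (.node (.node (.node (.leaf A2) (.leaf A514)) (.node (.leaf A258) (.leaf A0))) (.node (.node (.leaf A130) (.leaf A0)) (.node (.leaf A386) (.leaf A0)))) (.node (.node (.node (.leaf A66) (.leaf A578)) (.node (.leaf A322) (.leaf A0))) (.node (.node (.leaf A194) (.leaf A0)) (.node (.leaf A450) (.leaf A0))))) (.node (.node (.node (.node (.leaf A34) (.leaf A546)) (.node (.leaf A290) (.leaf A0))) (.node (.node (.leaf A162) (.leaf A0)) (.node (.leaf A418) (.leaf A0)))) (.node (.node (.node (.leaf A98) (.leaf A610)) (.node (.leaf A354) (.leaf A0))) (.node (.node (.leaf A226) (.leaf A0)) (.node (.leaf A482) (.leaf A0))))))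
def t_18 : DT := (.node (.node (.node (.node (.node (.leaf A18) (.leaf A530)) (.node (.leaf A274) (.leaf A0))) (.node (.node (.leaf A146) (.leaf A0)) (.node (.leaf A402) (.leaf A0)))) (.node (.node (.node (.leaf A82) (.leaf A594)) (.node (.leaf A338) (.leaf A0))) (.node (.node (.leaf A210) (.leaf A0)) (.node (.leaf A466) (.leaf A0))))) (.node (.node (.node (.node (.leaf A50) (.leaf A562)) (.node (.leaf A306) (.leaf A0))) (.node (.node (.leaf A178) (.leaf A0)) (.node (.leaf A434) (.leaf A0)))) (.node (.node (.node (.leaf A114) (.leaf A0)) (.node (.leaf A370) (.leaf A0))) (.node (.node (.leaf A242) (.leaf A0)) (.node (.leaf A498) (.leaf A0))))))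
def t_10 : DT := (.node (.node (.node (.node (.node (.leaf A10) (.leaf A522)) (.node (.leaf A266) (.leaf A0))) (.node (.node (.leaf A138) (.leaf A0)) (.node (.leaf A394) (.leaf A0)))) (.node (.node (.node (.leaf A74) (.leaf A586)) (.node (.leaf A330) (.leaf A0))) (.node (.node (.leaf A202) (.leaf A0)) (.node (.leaf A458) (.leaf A0))))) (.node (.node (.node (.node (.leaf A42) (.leaf A554)) (.node (.leaf A298) (.leaf A0))) (.node (.node (.leaf A170) (.leaf A0)) (.node (.leaf A426) (.leaf A0)))) (.node (.node (.node (.leaf A106) (.leaf A0)) (.node (.leaf A362) (.leaf A0))) (.node (.node (.leaf A234) (.leaf A0)) (.node (.leaf A490) (.leaf A0))))))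
def t_26 : DT := (.node (.node (.node (.node (.node (.leaf A26) (.leaf A538)) (.node (.leaf A282) (.leaf A0))) (.node (.node (.leaf A154) (.leaf A0)) (.node (.leaf A410) (.leaf A0)))) (.node (.node (.node (.leaf A90) (.leaf A602)) (.node (.leaf A346) (.leaf A0))) (.node (.node (.leaf A218) (.leaf A0)) (.node (.leaf A474) (.leaf A0))))) (.node (.node (.node (.node (.leaf A58) (.leaf A570)) (.node (.leaf A314) (.leaf A0))) (.node (.node (.leaf A186) (.leaf A0)) (.node (.leaf A442) (.leaf A0)))) (.node (.node (.node (.leaf A122) (.leaf A0)) (.node (.leaf A378) (.leaf A0))) (.node (.node (.leaf A250) (.leaf A0)) (.node (.leaf A506) (.leaf A0))))))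
def t_6 : DT := (.node (.node (.node (.node (.node (.leaf A6) (.leaf A518)) (.node (.leaf A262) (.leaf A0))) (.node (.node (.leaf A134) (.leaf A0)) (.node (.leaf A390) (.leaf A0)))) (.node (.node (.node (.leaf A70) (.leaf A582)) (.node (.leaf A326) (.leaf A0))) (.node (.node (.leaf A198) (.leaf A0)) (.node (.leaf A454) (.leaf A0))))) (.node (.node (.node (.node (.leaf A38) (.leaf A550)) (.node (.leaf A294) (.leaf A0))) (.node (.node (.leaf A166) (.leaf A0)) (.node (.leaf A422) (.leaf A0)))) (.node (.node (.node (.leaf A102) (.leaf A0)) (.node (.leaf A358) (.leaf A0))) (.node (.node (.leaf A230) (.leaf A0)) (.node (.leaf A486) (.leaf A0))))))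
def t_22 : DT := (.node (.node (.node (.node (.node (.leaf A22) (.leaf A534)) (.node (.leaf A278) (.leaf A0))) (.node (.node (.leaf A150) (.leaf A0)) (.node (.leaf A406) (.leaf A0)))) (.node (.node (.node (.leaf A86) (.leaf A598)) (.node (.leaf A342) (.leaf A0))) (.node (.node (.leaf A214) (.leaf A0)) (.node (.leaf A470) (.leaf A0))))) (.node (.node (.node (.node (.leaf A54) (.leaf A566)) (.node (.leaf A310) (.leaf A0))) (.node (.node (.leaf A182) (.leaf A0)) (.node (.leaf A438) (.leaf A0)))) (.node (.node (.node (.leaf A118) (.leaf A0)) (.node (.leaf A374) (.leaf A0))) (.node (.node (.leaf A246) (.leaf A0)) (.node (.leaf A502) (.leaf A0))))))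
def t_14 : DT := (.node (.node (.node (.node (.node (.leaf A14) (.leaf A526)) (.node (.leaf A270) (.leaf A0))) (.node (.node (.leaf A142) (.leaf A0)) (.node (.leaf A398) (.leaf A0)))) (.node (.node (.node (.leaf A78) (.leaf A590)) (.node (.leaf A334) (.leaf A0))) (.node (.node (.leaf A206) (.leaf A0)) (.node (.leaf A462) (.leaf A0))))) (.node (.node (.node (.node (.leaf A46) (.leaf A558)) (.node (.leaf A302) (.leaf A0))) (.node (.node (.leaf A174) (.leaf A0)) (.node (.leaf A430) (.leaf A0)))) (.node (.node (.node (.leaf A110) (.leaf A0)) (.node (.leaf A366) (.leaf A0))) (.node (.node (.leaf A238) (.leaf A0)) (.node (.leaf A494) (.leaf A0))))))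
def t_30 : DT := (.node (.node (.node (.node (.node (.leaf A30) (.leaf A542)) (.node (.leaf A286) (.leaf A0))) (.node (.node (.leaf A158) (.leaf A0)) (.node (.leaf A414) (.leaf A0)))) (.node (.node (.node (.leaf A94) (.leaf A606)) (.node (.leaf A350) (.leaf A0))) (.node (.node (.leaf A222) (.leaf A0)) (.node (.leaf A478) (.leaf A0))))) (.node (.node (.node (.node (.leaf A62) (.leaf A574)) (.node (.leaf A318) (.leaf A0))) (.node (.node (.leaf A190) (.leaf A0)) (.node (.leaf A446) (.leaf A0)))) (.node (.node (.node (.leaf A126) (.leaf A0)) (.node (.leaf A382) (.leaf A0))) (.node (.node (.leaf A254) (.leaf A0)) (.node (.leaf A510) (.leaf A0))))))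
def t_1 : DT := (.node (.node (.node (.node (.node (.leaf A1) (.leaf A513)) (.node (.leaf A257) (.leaf A0))) (.node (.node (.leaf A129) (.leaf A0)) (.node (.leaf A385) (.leaf A0)))) (.node (.node (.node (.leaf A65) (.leaf A577)) (.node (.leaf A321) (.leaf A0))) (.node (.node (.leaf A193) (.leaf A0)) (.node (.leaf A449) (.leaf A0))))) (.node (.node (.node (.node (.leaf A33) (.leaf A545)) (.node (.leaf A289) (.leaf A0))) (.node (.node (.leaf A161) (.leaf A0)) (.node (.leaf A417) (.leaf A0)))) (.node (.node (.node (.leaf A97) (.leaf A609)) (.node (.leaf A353) (.leaf A0))) (.node (.node (.leaf A225) (.leaf A0)) (.node (.leaf A481) (.leaf A0))))))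
def t_17 : DT := (.node (.node (.node (.node (.node (.leaf A17) (.leaf A529)) (.node (.leaf A273) (.leaf A0))) (.node (.node (.leaf A145) (.leaf A0)) (.node (.leaf A401) (.leaf A0)))) (.node (.node (.node (.leaf A81) (.leaf A593)) (.node (.leaf A337) (.leaf A0))) (.node (.node (.leaf A209) (.leaf A0)) (.node (.leaf A465) (.leaf A0))))) (.node (.node (.node (.node (.leaf A49) (.leaf A561)) (.node (.leaf A305) (.leaf A0))) (.node (.node (.leaf A177) (.leaf A0)) (.node (.leaf A433) (.leaf A0)))) (.node (.node (.node (.leaf A113) (.leaf A0)) (.node (.leaf A369) (.leaf A0))) (.node (.node (.leaf A241) (.leaf A0)) (.node (.leaf A497) (.leaf A0))))))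
def t_9 : DT := (.node (.node (.node (.node (.node (.leaf A9) (.leaf A521)) (.node (.leaf A265) (.leaf A0))) (.node (.node (.leaf A137) (.leaf A0)) (.node (.leaf A393) (.leaf A0)))) (.node (.node (.node (.leaf A73) (.leaf A585)) (.node (.leaf A329) (.leaf A0))) (.node (.node (.leaf A201) (.leaf A0)) (.node (.leaf A457) (.leaf A0))))) (.node (.node (.node (.node (.leaf A41) (.leaf A553)) (.node (.leaf A297) (.leaf A0))) (.node (.node (.leaf A169) (.leaf A0)) (.node (.leaf A425) (.leaf A0)))) (.node (.node (.node (.leaf A105) (.leaf A0)) (.node (.leaf A361) (.leaf A0))) (.node (.node (.leaf A233) (.leaf A0)) (.node (.leaf A489) (.leaf A0))))))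
def t_25 : DT := (.node (.node (.node (.node (.node (.leaf A25) (.leaf A537)) (.node (.leaf A281) (.leaf A0))) (.node (.node (.leaf A153) (.leaf A0)) (.node (.leaf A409) (.leaf A0)))) (.node (.node (.node (.leaf A89) (.leaf A601)) (.node (.leaf A345) (.leaf A0))) (.node (.node (.leaf A217) (.leaf A0)) (.node (.leaf A473) (.leaf A0))))) (.node (.node (.node (.node (.leaf A57) (.leaf A569)) (.node (.leaf A313) (.leaf A0))) (.node (.node (.leaf A185) (.leaf A0)) (.node (.leaf A441) (.leaf A0)))) (.node (.node (.node (.leaf A121) (.leaf A0)) (.node (.leaf A377) (.leaf A0))) (.node (.node (.leaf A249) (.leaf A0)) (.node (.leaf A505) (.leaf A0))))))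
def t_5 : DT := (.node (.node (.node (.node (.node (.leaf A5) (.leaf A517)) (.node (.leaf A261) (.leaf A0))) (.node (.node (.leaf A133) (.leaf A0)) (.node (.leaf A389) (.leaf A0)))) (.node (.node (.node (.leaf A69) (.leaf A581)) (.node (.leaf A325) (.leaf A0))) (.node (.node (.leaf A197) (.leaf A0)) (.node (.leaf A453) (.leaf A0))))) (.node (.node (.node (.node (.leaf A37) (.leaf A549)) (.node (.leaf A293) (.leaf A0))) (.node (.node (.leaf A165) (.leaf A0)) (.node (.leaf A421) (.leaf A0)))) (.node (.node (.node (.leaf A101) (.leaf A0)) (.node (.leaf A357) (.leaf A0))) (.node (.node (.leaf A229) (.leaf A0)) (.node (.leaf A485) (.leaf A0))))))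
def t_21 : DT := (.node (.node (.node (.node (.node (.leaf A21) (.leaf A533)) (.node (.leaf A277) (.leaf A0))) (.node (.node (.leaf A149) (.leaf A0)) (.node (.leaf A405) (.leaf A0)))) (.node (.node (.node (.leaf A85) (.leaf A597)) (.node (.leaf A341) (.leaf A0))) (.node (.node (.leaf A213) (.leaf A0)) (.node (.leaf A469) (.leaf A0))))) (.node (.node (.node (.node (.leaf A53) (.leaf A565)) (.node (.leaf A309) (.leaf A0))) (.node (.node (.leaf A181) (.leaf A0)) (.node (.leaf A437) (.leaf A0)))) (.node (.node (.node (.leaf A117) (.leaf A0)) (.node (.leaf A373) (.leaf A0))) (.node (.node (.leaf A245) (.leaf A0)) (.node (.leaf A501) (.leaf A0))))))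
def t_13 : DT := (.node (.node (.node (.node (.node (.leaf A13) (.leaf A525)) (.node (.leaf A269) (.leaf A0))) (.node (.node (.leaf A141) (.leaf A0)) (.node (.leaf A397) (.leaf A0)))) (.node (.node (.node (.leaf A77) (.leaf A589)) (.node (.leaf A333) (.leaf A0))) (.node (.node (.leaf A205) (.leaf A0)) (.node (.leaf A461) (.leaf A0))))) (.node (.node (.node (.node (.leaf A45) (.leaf A557)) (.node (.leaf A301) (.leaf A0))) (.node (.node (.leaf A173) (.leaf A0)) (.node (.leaf A429) (.leaf A0)))) (.node (.node (.node (.leaf A109) (.leaf A0)) (.node (.leaf A365) (.leaf A0))) (.node (.node (.leaf A237) (.leaf A0)) (.node (.leaf A493) (.leaf A0))))))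
def t_29 : DT := (.node (.node (.node (.node (.node (.leaf A29) (.leaf A541)) (.node (.leaf A285) (.leaf A0))) (.node (.node (.leaf A157) (.leaf A0)) (.node (.leaf A413) (.leaf A0)))) (.node (.node (.node (.leaf A93) (.leaf A605)) (.node (.leaf A349) (.leaf A0))) (.node (.node (.leaf A221) (.leaf A0)) (.node (.leaf A477) (.leaf A0))))) (.node (.node (.node (.node (.leaf A61) (.leaf A573)) (.node (.leaf A317) (.leaf A0))) (.node (.node (.leaf A189) (.leaf A0)) (.node (.leaf A445) (.leaf A0)))) (.node (.node (.node (.leaf A125) (.leaf A0)) (.node (.leaf A381) (.leaf A0))) (.node (.node (.leaf A253) (.leaf A0)) (.node (.leaf A509) (.leaf A0))))))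
def t_3 : DT := (.node (.node (.node (.node (.node (.leaf A3) (.leaf A515)) (.node (.leaf A259) (.leaf A0))) (.node (.node (.leaf A131) (.leaf A0)) (.node (.leaf A387) (.leaf A0)))) (.node (.node (.node (.leaf A67) (.leaf A579)) (.node (.leaf A323) (.leaf A0))) (.node (.node (.leaf A195) (.leaf A0)) (.node (.leaf A451) (.leaf A0))))) (.node (.node (.node (.node (.leaf A35) (.leaf A547)) (.node (.leaf A291) (.leaf A0))) (.node (.node (.leaf A163) (.leaf A0)) (.node (.leaf A419) (.leaf A0)))) (.node (.node (.node (.leaf A99) (.leaf A611)) (.node (.leaf A355) (.leaf A0))) (.node (.node (.leaf A227) (.leaf A0)) (.node (.leaf A483) (.leaf A0))))))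
def t_19 : DT := (.node (.node (.node (.node (.node (.leaf A19) (.leaf A531)) (.node (.leaf A275) (.leaf A0))) (.node (.node (.leaf A147) (.leaf A0)) (.node (.leaf A403) (.leaf A0)))) (.node (.node (.node (.leaf A83) (.leaf A595)) (.node (.leaf A339) (.leaf A0))) (.node (.node (.leaf A211) (.leaf A0)) (.node (.leaf A467) (.leaf A0))))) (.node (.node (.node (.node (.leaf A51) (.leaf A563)) (.node (.leaf A307) (.leaf A0))) (.node (.node (.leaf A179) (.leaf A0)) (.node (.leaf A435) (.leaf A0)))) (.node (.node (.node (.leaf A115) (.leaf A0)) (.node (.leaf A371) (.leaf A0))) (.node (.node (.leaf A243) (.leaf A0)) (.node (.leaf A499) (.leaf A0))))))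
def t_11 : DT := (.node (.node (.node (.node (.node (.leaf A11) (.leaf A523)) (.node (.leaf A267) (.leaf A0))) (.node (.node (.leaf A139) (.leaf A0)) (.node (.leaf A395) (.leaf A0)))) (.node (.node (.node (.leaf A75) (.leaf A587)) (.node (.leaf A331) (.leaf A0))) (.node (.node (.leaf A203) (.leaf A0)) (.node (.leaf A459) (.leaf A0))))) (.node (.node (.node (.node (.leaf A43) (.leaf A555)) (.node (.leaf A299) (.leaf A0))) (.node (.node (.leaf A171) (.leaf A0)) (.node (.leaf A427) (.leaf A0)))) (.node (.node (.node (.leaf A107) (.leaf A0)) (.node (.leaf A363) (.leaf A0))) (.node (.node (.leaf A235) (.leaf A0)) (.node (.leaf A491) (.leaf A0))))))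
def t_27 : DT := (.node (.node (.node (.node (.node (.leaf A27) (.leaf A539)) (.node (.leaf A283) (.leaf A0))) (.node (.node (.leaf A155) (.leaf A0)) (.node (.leaf A411) (.leaf A0)))) (.node (.node (.node (.leaf A91) (.leaf A603)) (.node (.leaf A347) (.leaf A0))) (.node (.node (.leaf A219) (.leaf A0)) (.node (.leaf A475) (.leaf A0))))) (.node (.node (.node (.node (.leaf A59) (.leaf A571)) (.node (.leaf A315) (.leaf A0))) (.node (.node (.leaf A187) (.leaf A0)) (.node (.leaf A443) (.leaf A0)))) (.node (.node (.node (.leaf A123) (.leaf A0)) (.node (.leaf A379) (.leaf A0))) (.node (.node (.leaf A251) (.leaf A0)) (.node (.leaf A507) (.leaf A0))))))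
def t_7 : DT := (.node (.node (.node (.node (.node (.leaf A7) (.leaf A519)) (.node (.leaf A263) (.leaf A0))) (.node (.node (.leaf A135) (.leaf A0)) (.node (.leaf A391) (.leaf A0)))) (.node (.node (.node (.leaf A71) (.leaf A583)) (.node (.leaf A327) (.leaf A0))) (.node (.node (.leaf A199) (.leaf A0)) (.node (.leaf A455) (.leaf A0))))) (.node (.node (.node (.node (.leaf A39) (.leaf A551)) (.node (.leaf A295) (.leaf A0))) (.node (.node (.leaf A167) (.leaf A0)) (.node (.leaf A423) (.leaf A0)))) (.node (.node (.node (.leaf A103) (.leaf A0)) (.node (.leaf A359) (.leaf A0))) (.node (.node (.leaf A231) (.leaf A0)) (.node (.leaf A487) (.leaf A0))))))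
def t_23 : DT := (.node (.node (.node (.node (.node (.leaf A23) (.leaf A535)) (.node (.leaf A279) (.leaf A0))) (.node (.node (.leaf A151) (.leaf A0)) (.node (.leaf A407) (.leaf A0)))) (.node (.node (.node (.leaf A87) (.leaf A599)) (.node (.leaf A343) (.leaf A0))) (.node (.node (.leaf A215) (.leaf A0)) (.node (.leaf A471) (.leaf A0))))) (.node (.node (.node (.node (.leaf A55) (.leaf A567)) (.node (.leaf A311) (.leaf A0))) (.node (.node (.leaf A183) (.leaf A0)) (.node (.leaf A439) (.leaf A0)))) (.node (.node (.node (.leaf A119) (.leaf A0)) (.node (.leaf A375) (.leaf A0))) (.node (.node (.leaf A247) (.leaf A0)) (.node (.leaf A503) (.leaf A0))))))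
def t_15 : DT := (.node (.node (.node (.node (.node (.leaf A15) (.leaf A527)) (.node (.leaf A271) (.leaf A0))) (.node (.node (.leaf A143) (.leaf A0)) (.node (.leaf A399) (.leaf A0)))) (.node (.node (.node (.leaf A79) (.leaf A591)) (.node (.leaf A335) (.leaf A0))) (.node (.node (.leaf A207) (.leaf A0)) (.node (.leaf A463) (.leaf A0))))) (.node (.node (.node (.node (.leaf A47) (.leaf A559)) (.node (.leaf A303) (.leaf A0))) (.node (.node (.leaf A175) (.leaf A0)) (.node (.leaf A431) (.leaf A0)))) (.node (.node (.node (.leaf A111) (.leaf A0)) (.node (.leaf A367) (.leaf A0))) (.node (.node (.leaf A239) (.leaf A0)) (.node (.leaf A495) (.leaf A0))))))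
def t_31 : DT := (.node (.node (.node (.node (.node (.leaf A31) (.leaf A543)) (.node (.leaf A287) (.leaf A0))) (.node (.node (.leaf A159) (.leaf A0)) (.node (.leaf A415) (.leaf A0)))) (.node (.node (.node (.leaf A95) (.leaf A607)) (.node (.leaf A351) (.leaf A0))) (.node (.node (.leaf A223) (.leaf A0)) (.node (.leaf A479) (.leaf A0))))) (.node (.node (.node (.node (.leaf A63) (.leaf A575)) (.node (.leaf A319) (.leaf A0))) (.node (.node (.leaf A191) (.leaf A0)) (.node (.leaf A447) (.leaf A0)))) (.node (.node (.node (.leaf A127) (.leaf A0)) (.node (.leaf A383) (.leaf A0))) (.node (.node (.leaf A255) (.leaf A0)) (.node (.leaf A511) (.leaf A0))))))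

/-- Tree. -/
def t : DT := (.node (.node (.node (.node (.node t_0 t_16) (.node t_8 t_24)) (.node (.node t_4 t_20) (.node t_12 t_28))) (.node (.node (.node t_2 t_18) (.node t_10 t_26)) (.node (.node t_6 t_22) (.node t_14 t_30)))) (.node (.node (.node (.node t_1 t_17) (.node t_9 t_25)) (.node (.node t_5 t_21) (.node t_13 t_29))) (.node (.node (.node t_3 t_19) (.node t_11 t_27)) (.node (.node t_7 t_23) (.node t_15 t_31)))))
def u_0 : DT := (.node (.node (.node (.node (.node (.leaf X0) (.leaf X1024)) (.node (.leaf X512) (.leaf X0))) (.node (.node (.leaf X256) (.leaf X1280)) (.node (.leaf X768) (.leaf X0)))) (.node (.node (.node (.leaf X128) (.leaf X1152)) (.node (.leaf X640) (.leaf X0))) (.node (.node (.leaf X384) (.leaf X1408)) (.node (.leaf X896) (.leaf X0))))) (.node (.node (.node (.node (.leaf X64) (.leaf X1088)) (.node (.leaf X576) (.leaf X0))) (.node (.node (.leaf X320) (.leaf X1344)) (.node (.leaf X832) (.leaf X0)))) (.node (.node (.node (.leaf X192) (.leaf X1216)) (.node (.leaf X704) (.leaf X0))) (.node (.node (.leaf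 X448) (.leaf X1472)) (.node (.leaf X960) (.leaf X0))))))
def u_32 : DT := (.node (.node (.node (.node (.node (.leaf X32) (.leaf X1056)) (.node (.leaf X544) (.leaf X0))) (.node (.node (.leaf X288) (.leaf X1312)) (.node (.leaf X800) (.leaf X0)))) (.node (.node (.node (.leaf X160) (.leaf X1184)) (.node (.leaf X672) (.leaf X0))) (.node (.node (.leaf X416) (.leaf X1440)) (.node (.leaf X928) (.leaf X0))))) (.node (.node (.node (.node (.leaf X96) (.leaf X1120)) (.node (.leaf X608) (.leaf X0))) (.node (.node (.leaf X352) (.leaf X1376)) (.node (.leaf X864) (.leaf X0)))) (.node (.node (.node (.leaf X224) (.leaf X1248)) (.node (.leaf X736) (.leaf X0))) (.node (.node (.leaf X480) (.leaf X1504)) (.node (.leaf X992) (.leaf X0))))))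
def u_16 : DT := (.node (.node (.node (.node (.node (.leaf X16) (.leaf X1040)) (.node (.leaf X528) (.leaf X0))) (.node (.node (.leaf X272) (.leaf X1296)) (.node (.leaf X784) (.leaf X0)))) (.node (.node (.node (.leaf X144) (.leaf X1168)) (.node (.leaf X656) (.leaf X0))) (.node (.node (.leaf X400) (.leaf X1424)) (.node (.leaf X912) (.leaf X0))))) (.node (.node (.node (.node (.leaf X80) (.leaf X1104)) (.node (.leaf X592) (.leaf X0))) (.node (.node (.leaf X336) (.leaf X1360)) (.node (.leaf X848) (.leaf X0)))) (.node (.node (.node (.leaf X208) (.leaf X1232)) (.node (.leaf X720) (.leaf X0))) (.node (.node (.leaf X464) (.leaf X1488)) (.node (.leaf X976) (.leaf X0))))))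
def u_48 : DT := (.node (.node (.node (.node (.node (.leaf X48) (.leaf X1072)) (.node (.leaf X560) (.leaf X0))) (.node (.node (.leaf X304) (.leaf X1328)) (.node (.leaf X816) (.leaf X0)))) (.node (.node (.node (.leaf X176) (.leaf X1200)) (.node (.leaf X688) (.leaf X0))) (.node (.node (.leaf X432) (.leaf X1456)) (.node (.leaf X944) (.leaf X0))))) (.node (.node (.node (.node (.leaf X112) (.leaf X1136)) (.node (.leaf X624) (.leaf X0))) (.node (.node (.leaf X368) (.leaf X1392)) (.node (.leaf X880) (.leaf X0)))) (.node (.node (.node (.leaf X240) (.leaf X1264)) (.node (.leaf X752) (.leaf X0))) (.node (.node (.leaf X496) (.leaf X1520)) (.node (.leaf X1008) (.leaf X0))))))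
def u_8 : DT := (.node (.node (.node (.node (.node (.leaf X8) (.leaf X1032)) (.node (.leaf X520) (.leaf X0))) (.node (.node (.leaf X264) (.leaf X1288)) (.node (.leaf X776) (.leaf X0)))) (.node (.node (.node (.leaf X136) (.leaf X1160)) (.node (.leaf X648) (.leaf X0))) (.node (.node (.leaf X392) (.leaf X1416)) (.node (.leaf X904) (.leaf X0))))) (.node (.node (.node (.node (.leaf X72) (.leaf X1096)) (.node (.leaf X584) (.leaf X0))) (.node (.node (.leaf X328) (.leaf X1352)) (.node (.leaf X840) (.leaf X0)))) (.node (.node (.node (.leaf X200) (.leaf X1224)) (.node (.leaf X712) (.leaf X0))) (.node (.node (.leaf X456) (.leaf X1480)) (.node (.leaf X968) (.leaf X0))))))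
def u_40 : DT := (.node (.node (.node (.node (.node (.leaf X40) (.leaf X1064)) (.node (.leaf X552) (.leaf X0))) (.node (.node (.leaf X296) (.leaf X1320)) (.node (.leaf X808) (.leaf X0)))) (.node (.node (.node (.leaf X168) (.leaf X1192)) (.node (.leaf X680) (.leaf X0))) (.node (.node (.leaf X424) (.leaf X1448)) (.node (.leaf X936) (.leaf X0))))) (.node (.node (.node (.node (.leaf X104) (.leaf X1128)) (.node (.leaf X616) (.leaf X0))) (.node (.node (.leaf X360) (.leaf X1384)) (.node (.leaf X872) (.leaf X0)))) (.node (.node (.node (.leaf X232) (.leaf X1256)) (.node (.leaf X744) (.leaf X0))) (.node (.node (.leaf X488) (.leaf X1512)) (.node (.leaf X1000) (.leaf X0))))))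
def u_24 : DT := (.node (.node (.node (.node (.node (.leaf X24) (.leaf X1048)) (.node (.leaf X536) (.leaf X0))) (.node (.node (.leaf X280) (.leaf X1304)) (.node (.leaf X792) (.leaf X0)))) (.node (.node (.node (.leaf X152) (.leaf X1176)) (.node (.leaf X664) (.leaf X0))) (.node (.node (.leaf X408) (.leaf X1432)) (.node (.leaf X920) (.leaf X0))))) (.node (.node (.node (.node (.leaf X88) (.leaf X1112)) (.node (.leaf X600) (.leaf X0))) (.node (.node (.leaf X344) (.leaf X1368)) (.node (.leaf X856) (.leaf X0)))) (.node (.node (.node (.leaf X216) (.leaf X1240)) (.node (.leaf X728) (.leaf X0))) (.node (.node (.leaf X472) (.leaf X1496)) (.node (.leaf X984) (.leaf X0))))))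
def u_56 : DT := (.node (.node (.node (.node (.node (.leaf X56) (.leaf X1080)) (.node (.leaf X568) (.leaf X0))) (.node (.node (.leaf X312) (.leaf X1336)) (.node (.leaf X824) (.leaf X0)))) (.node (.node (.node (.leaf X184) (.leaf X1208)) (.node (.leaf X696) (.leaf X0))) (.node (.node (.leaf X440) (.leaf X1464)) (.node (.leaf X952) (.leaf X0))))) (.node (.node (.node (.node (.leaf X120) (.leaf X1144)) (.node (.leaf X632) (.leaf X0))) (.node (.node (.leaf X376) (.leaf X1400)) (.node (.leaf X888) (.leaf X0)))) (.node (.node (.node (.leaf X248) (.leaf X1272)) (.node (.leaf X760) (.leaf X0))) (.node (.node (.leaf X504) (.leaf X0)) (.node (.leaf X1016) (.leaf X0))))))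
def u_4 : DT := (.node (.node (.node (.node (.node (.leaf X4) (.leaf X1028)) (.node (.leaf X516) (.leaf X0))) (.node (.node (.leaf X260) (.leaf X1284)) (.node (.leaf X772) (.leaf X0)))) (.node (.node (.node (.leaf X132) (.leaf X1156)) (.node (.leaf X644) (.leaf X0))) (.node (.node (.leaf X388) (.leaf X1412)) (.node (.leaf X900) (.leaf X0))))) (.node (.node (.node (.node (.leaf X68) (.leaf X1092)) (.node (.leaf X580) (.leaf X0))) (.node (.node (.leaf X324) (.leaf X1348)) (.node (.leaf X836) (.leaf X0)))) (.node (.node (.node (.leaf X196) (.leaf X1220)) (.node (.leaf X708) (.leaf X0))) (.node (.node (.leaf X452) (.leaf X1476)) (.node (.leaf X964) (.leaf X0))))))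
def u_36 : DT := (.node (.node (.node (.node (.node (.leaf X36) (.leaf X1060)) (.node (.leaf X548) (.leaf X0))) (.node (.node (.leaf X292) (.leaf X1316)) (.node (.leaf X804) (.leaf X0)))) (.node (.node (.node (.leaf X164) (.leaf X1188)) (.node (.leaf X676) (.leaf X0))) (.node (.node (.leaf X420) (.leaf X1444)) (.node (.leaf X932) (.leaf X0))))) (.node (.node (.node (.node (.leaf X100) (.leaf X1124)) (.node (.leaf X612) (.leaf X0))) (.node (.node (.leaf X356) (.leaf X1380)) (.node (.leaf X868) (.leaf X0)))) (.node (.node (.node (.leaf X228) (.leaf X1252)) (.node (.leaf X740) (.leaf X0))) (.node (.node (.leaf X484) (.leaf X1508)) (.node (.leaf X996) (.leaf X0))))))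
def u_20 : DT := (.node (.node (.node (.node (.node (.leaf X20) (.leaf X1044)) (.node (.leaf X532) (.leaf X0))) (.node (.node (.leaf X276) (.leaf X1300)) (.node (.leaf X788) (.leaf X0)))) (.node (.node (.node (.leaf X148) (.leaf X1172)) (.node (.leaf X660) (.leaf X0))) (.node (.node (.leaf X404) (.leaf X1428)) (.node (.leaf X916) (.leaf X0))))) (.node (.node (.node (.node (.leaf X84) (.leaf X1108)) (.node (.leaf X596) (.leaf X0))) (.node (.node (.leaf X340) (.leaf X1364)) (.node (.leaf X852) (.leaf X0)))) (.node (.node (.node (.leaf X212) (.leaf X1236)) (.node (.leaf X724) (.leaf X0))) (.node (.node (.leaf X468) (.leaf X1492)) (.node (.leaf X980) (.leaf X0))))))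
def u_52 : DT := (.node (.node (.node (.node (.node (.leaf X52) (.leaf X1076)) (.node (.leaf X564) (.leaf X0))) (.node (.node (.leaf X308) (.leaf X1332)) (.node (.leaf X820) (.leaf X0)))) (.node (.node (.node (.leaf X180) (.leaf X1204)) (.node (.leaf X692) (.leaf X0))) (.node (.node (.leaf X436) (.leaf X1460)) (.node (.leaf X948) (.leaf X0))))) (.node (.node (.node (.node (.leaf X116) (.leaf X1140)) (.node (.leaf X628) (.leaf X0))) (.node (.node (.leaf X372) (.leaf X1396)) (.node (.leaf X884) (.leaf X0)))) (.node (.node (.node (.leaf X244) (.leaf X1268)) (.node (.leaf X756) (.leaf X0))) (.node (.node (.leaf X500) (.leaf X0)) (.node (.leaf X1012) (.leaf X0))))))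
def u_12 : DT := (.node (.node (.node (.node (.node (.leaf X12) (.leaf X1036)) (.node (.leaf X524) (.leaf X0))) (.node (.node (.leaf X268) (.leaf X1292)) (.node (.leaf X780) (.leaf X0)))) (.node (.node (.node (.leaf X140) (.leaf X1164)) (.node (.leaf X652) (.leaf X0))) (.node (.node (.leaf X396) (.leaf X1420)) (.node (.leaf X908) (.leaf X0))))) (.node (.node (.node (.node (.leaf X76) (.leaf X1100)) (.node (.leaf X588) (.leaf X0))) (.node (.node (.leaf X332) (.leaf X1356)) (.node (.leaf X844) (.leaf X0)))) (.node (.node (.node (.leaf X204) (.leaf X1228)) (.node (.leaf X716) (.leaf X0))) (.node (.node (.leaf X460) (.leaf X1484)) (.node (.leaf X972) (.leaf X0))))))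
def u_44 : DT := (.node (.node (.node (.node (.node (.leaf X44) (.leaf X1068)) (.node (.leaf X556) (.leaf X0))) (.node (.node (.leaf X300) (.leaf X1324)) (.node (.leaf X812) (.leaf X0)))) (.node (.node (.node (.leaf X172) (.leaf X1196)) (.node (.leaf X684) (.leaf X0))) (.node (.node (.leaf X428) (.leaf X1452)) (.node (.leaf X940) (.leaf X0))))) (.node (.node (.node (.node (.leaf X108) (.leaf X1132)) (.node (.leaf X620) (.leaf X0))) (.node (.node (.leaf X364) (.leaf X1388)) (.node (.leaf X876) (.leaf X0)))) (.node (.node (.node (.leaf X236) (.leaf X1260)) (.node (.leaf X748) (.leaf X0))) (.node (.node (.leaf X492) (.leaf X1516)) (.node (.leaf X1004) (.leaf X0))))))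
def u_28 : DT := (.node (.node (.node (.node (.node (.leaf X28) (.leaf X1052)) (.node (.leaf X540) (.leaf X0))) (.node (.node (.leaf X284) (.leaf X1308)) (.node (.leaf X796) (.leaf X0)))) (.node (.node (.node (.leaf X156) (.leaf X1180)) (.node (.leaf X668) (.leaf X0))) (.node (.node (.leaf X412) (.leaf X1436)) (.node (.leaf X924) (.leaf X0))))) (.node (.node (.node (.node (.leaf X92) (.leaf X1116)) (.node (.leaf X604) (.leaf X0))) (.node (.node (.leaf X348) (.leaf X1372)) (.node (.leaf X860) (.leaf X0)))) (.node (.node (.node (.leaf X220) (.leaf X1244)) (.node (.leaf X732) (.leaf X0))) (.node (.node (.leaf X476) (.leaf X1500)) (.node (.leaf X988) (.leaf X0))))))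
def u_60 : DT := (.node (.node (.node (.node (.node (.leaf X60) (.leaf X1084)) (.node (.leaf X572) (.leaf X0))) (.node (.node (.leaf X316) (.leaf X1340)) (.node (.leaf X828) (.leaf X0)))) (.node (.node (.node (.leaf X188) (.leaf X1212)) (.node (.leaf X700) (.leaf X0))) (.node (.node (.leaf X444) (.leaf X1468)) (.node (.leaf X956) (.leaf X0))))) (.node (.node (.node (.node (.leaf X124) (.leaf X1148)) (.node (.leaf X636) (.leaf X0))) (.node (.node (.leaf X380) (.leaf X1404)) (.node (.leaf X892) (.leaf X0)))) (.node (.node (.node (.leaf X252) (.leaf X1276)) (.node (.leaf X764) (.leaf X0))) (.node (.node (.leaf X508) (.leaf X0)) (.node (.leaf X1020) (.leaf X0))))))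
def u_2 : DT := (.node (.node (.node (.node (.node (.leaf X2) (.leaf X1026)) (.node (.leaf X514) (.leaf X0))) (.node (.node (.leaf X258) (.leaf X1282)) (.node (.leaf X770) (.leaf X0)))) (.node (.node (.node (.leaf X130) (.leaf X1154)) (.node (.leaf X642) (.leaf X0))) (.node (.node (.leaf X386) (.leaf X1410)) (.node (.leaf X898) (.leaf X0))))) (.node (.node (.node (.node (.leaf X66) (.leaf X1090)) (.node (.leaf X578) (.leaf X0))) (.node (.node (.leaf X322) (.leaf X1346)) (.node (.leaf X834) (.leaf X0)))) (.node (.node (.node (.leaf X194) (.leaf X1218)) (.node (.leaf X706) (.leaf X0))) (.node (.node (.leaf X450) (.leaf X1474)) (.node (.leaf X962) (.leaf X0))))))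
def u_34 : DT := (.node (.node (.node (.node (.node (.leaf X34) (.leaf X1058)) (.node (.leaf X546) (.leaf X0))) (.node (.node (.leaf X290) (.leaf X1314)) (.node (.leaf X802) (.leaf X0)))) (.node (.node (.node (.leaf X162) (.leaf X1186)) (.node (.leaf X674) (.leaf X0))) (.node (.node (.leaf X418) (.leaf X1442)) (.node (.leaf X930) (.leaf X0))))) (.node (.node (.node (.node (.leaf X98) (.leaf X1122)) (.node (.leaf X610) (.leaf X0))) (.node (.node (.leaf X354) (.leaf X1378)) (.node (.leaf X866) (.leaf X0)))) (.node (.node (.node (.leaf X226) (.leaf X1250)) (.node (.leaf X738) (.leaf X0))) (.node (.node (.leaf X482) (.leaf X1506)) (.node (.leaf X994) (.leaf X0))))))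
def u_18 : DT := (.node (.node (.node (.node (.node (.leaf X18) (.leaf X1042)) (.node (.leaf X530) (.leaf X0))) (.node (.node (.leaf X274) (.leaf X1298)) (.node (.leaf X786) (.leaf X0)))) (.node (.node (.node (.leaf X146) (.leaf X1170)) (.node (.leaf X658) (.leaf X0))) (.node (.node (.leaf X402) (.leaf X1426)) (.node (.leaf X914) (.leaf X0))))) (.node (.node (.node (.node (.leaf X82) (.leaf X1106)) (.node (.leaf X594) (.leaf X0))) (.node (.node (.leaf X338) (.leaf X1362)) (.node (.leaf X850) (.leaf X0)))) (.node (.node (.node (.leaf X210) (.leaf X1234)) (.node (.leaf X722) (.leaf X0))) (.node (.node (.leaf X466) (.leaf X1490)) (.node (.leaf X978) (.leaf X0))))))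
def u_50 : DT := (.node (.node (.node (.node (.node (.leaf X50) (.leaf X1074)) (.node (.leaf X562) (.leaf X0))) (.node (.node (.leaf X306) (.leaf X1330)) (.node (.leaf X818) (.leaf X0)))) (.node (.node (.node (.leaf X178) (.leaf X1202)) (.node (.leaf X690) (.leaf X0))) (.node (.node (.leaf X434) (.leaf X1458)) (.node (.leaf X946) (.leaf X0))))) (.node (.node (.node (.node (.leaf X114) (.leaf X1138)) (.node (.leaf X626) (.leaf X0))) (.node (.node (.leaf X370) (.leaf X1394)) (.node (.leaf X882) (.leaf X0)))) (.node (.node (.node (.leaf X242) (.leaf X1266)) (.node (.leaf X754) (.leaf X0))) (.node (.node (.leaf X498) (.leaf X0)) (.node (.leaf X1010) (.leaf X0))))))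
def u_10 : DT := (.node (.node (.node (.node (.node (.leaf X10) (.leaf X1034)) (.node (.leaf X522) (.leaf X0))) (.node (.node (.leaf X266) (.leaf X1290)) (.node (.leaf X778) (.leaf X0)))) (.node (.node (.node (.leaf X138) (.leaf X1162)) (.node (.leaf X650) (.leaf X0))) (.node (.node (.leaf X394) (.leaf X1418)) (.node (.leaf X906) (.leaf X0))))) (.node (.node (.node (.node (.leaf X74) (.leaf X1098)) (.node (.leaf X586) (.leaf X0))) (.node (.node (.leaf X330) (.leaf X1354)) (.node (.leaf X842) (.leaf X0)))) (.node (.node (.node (.leaf X202) (.leaf X1226)) (.node (.leaf X714) (.leaf X0))) (.node (.node (.leaf X458) (.leaf X1482)) (.node (.leaf X970) (.leaf X0))))))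
def u_42 : DT := (.node (.node (.node (.node (.node (.leaf X42) (.leaf X1066)) (.node (.leaf X554) (.leaf X0))) (.node (.node (.leaf X298) (.leaf X1322)) (.node (.leaf X810) (.leaf X0)))) (.node (.node (.node (.leaf X170) (.leaf X1194)) (.node (.leaf X682) (.leaf X0))) (.node (.node (.leaf X426) (.leaf X1450)) (.node (.leaf X938) (.leaf X0))))) (.node (.node (.node (.node (.leaf X106) (.leaf X1130)) (.node (.leaf X618) (.leaf X0))) (.node (.node (.leaf X362) (.leaf X1386)) (.node (.leaf X874) (.leaf X0)))) (.node (.node (.node (.leaf X234) (.leaf X1258)) (.node (.leaf X746) (.leaf X0))) (.node (.node (.leaf X490) (.leaf X1514)) (.node (.leaf X1002) (.leaf X0))))))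
def u_26 : DT := (.node (.node (.node (.node (.node (.leaf X26) (.leaf X1050)) (.node (.leaf X538) (.leaf X0))) (.node (.node (.leaf X282) (.leaf X1306)) (.node (.leaf X794) (.leaf X0)))) (.node (.node (.node (.leaf X154) (.leaf X1178)) (.node (.leaf X666) (.leaf X0))) (.node (.node (.leaf X410) (.leaf X1434)) (.node (.leaf X922) (.leaf X0))))) (.node (.node (.node (.node (.leaf X90) (.leaf X1114)) (.node (.leaf X602) (.leaf X0))) (.node (.node (.leaf X346) (.leaf X1370)) (.node (.leaf X858) (.leaf X0)))) (.node (.node (.node (.leaf X218) (.leaf X1242)) (.node (.leaf X730) (.leaf X0))) (.node (.node (.leaf X474) (.leaf X1498)) (.node (.leaf X986) (.leaf X0))))))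
def u_58 : DT := (.node (.node (.node (.node (.node (.leaf X58) (.leaf X1082)) (.node (.leaf X570) (.leaf X0))) (.node (.node (.leaf X314) (.leaf X1338)) (.node (.leaf X826) (.leaf X0)))) (.node (.node (.node (.leaf X186) (.leaf X1210)) (.node (.leaf X698) (.leaf X0))) (.node (.node (.leaf X442) (.leaf X1466)) (.node (.leaf X954) (.leaf X0))))) (.node (.node (.node (.node (.leaf X122) (.leaf X1146)) (.node (.leaf X634) (.leaf X0))) (.node (.node (.leaf X378) (.leaf X1402)) (.node (.leaf X890) (.leaf X0)))) (.node (.node (.node (.leaf X250) (.leaf X1274)) (.node (.leaf X762) (.leaf X0))) (.node (.node (.leaf X506) (.leaf X0)) (.node (.leaf X1018) (.leaf X0))))))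
def u_6 : DT := (.node (.node (.node (.node (.node (.leaf X6) (.leaf X1030)) (.node (.leaf X518) (.leaf X0))) (.node (.node (.leaf X262) (.leaf X1286)) (.node (.leaf X774) (.leaf X0)))) (.node (.node (.node (.leaf X134) (.leaf X1158)) (.node (.leaf X646) (.leaf X0))) (.node (.node (.leaf X390) (.leaf X1414)) (.node (.leaf X902) (.leaf X0))))) (.node (.node (.node (.node (.leaf X70) (.leaf X1094)) (.node (.leaf X582) (.leaf X0))) (.node (.node (.leaf X326) (.leaf X1350)) (.node (.leaf X838) (.leaf X0)))) (.node (.node (.node (.leaf X198) (.leaf X1222)) (.node (.leaf X710) (.leaf X0))) (.node (.node (.leaf X454) (.leaf X1478)) (.node (.leaf X966) (.leaf X0))))))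
def u_38 : DT := (.node (.node (.node (.node (.node (.leaf X38) (.leaf X1062)) (.node (.leaf X550) (.leaf X0))) (.node (.node (.leaf X294) (.leaf X1318)) (.node (.leaf X806) (.leaf X0)))) (.node (.node (.node (.leaf X166) (.leaf X1190)) (.node (.leaf X678) (.leaf X0))) (.node (.node (.leaf X422) (.leaf X1446)) (.node (.leaf X934) (.leaf X0))))) (.node (.node (.node (.node (.leaf X102) (.leaf X1126)) (.node (.leaf X614) (.leaf X0))) (.node (.node (.leaf X358) (.leaf X1382)) (.node (.leaf X870) (.leaf X0)))) (.node (.node (.node (.leaf X230) (.leaf X1254)) (.node (.leaf X742) (.leaf X0))) (.node (.node (.leaf X486) (.leaf X1510)) (.node (.leaf X998) (.leaf X0))))))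
def u_22 : DT := (.node (.node (.node (.node (.node (.leaf X22) (.leaf X1046)) (.node (.leaf X534) (.leaf X0))) (.node (.node (.leaf X278) (.leaf X1302)) (.node (.leaf X790) (.leaf X0)))) (.node (.node (.node (.leaf X150) (.leaf X1174)) (.node (.leaf X662) (.leaf X0))) (.node (.node (.leaf X406) (.leaf X1430)) (.node (.leaf X918) (.leaf X0))))) (.node (.node (.node (.node (.leaf X86) (.leaf X1110)) (.node (.leaf X598) (.leaf X0))) (.node (.node (.leaf X342) (.leaf X1366)) (.node (.leaf X854) (.leaf X0)))) (.node (.node (.node (.leaf X214) (.leaf X1238)) (.node (.leaf X726) (.leaf X0))) (.node (.node (.leaf X470) (.leaf X1494)) (.node (.leaf X982) (.leaf X0))))))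
def u_54 : DT := (.node (.node (.node (.node (.node (.leaf X54) (.leaf X1078)) (.node (.leaf X566) (.leaf X0))) (.node (.node (.leaf X310) (.leaf X1334)) (.node (.leaf X822) (.leaf X0)))) (.node (.node (.node (.leaf X182) (.leaf X1206)) (.node (.leaf X694) (.leaf X0))) (.node (.node (.leaf X438) (.leaf X1462)) (.node (.leaf X950) (.leaf X0))))) (.node (.node (.node (.node (.leaf X118) (.leaf X1142)) (.node (.leaf X630) (.leaf X0))) (.node (.node (.leaf X374) (.leaf X1398)) (.node (.leaf X886) (.leaf X0)))) (.node (.node (.node (.leaf X246) (.leaf X1270)) (.node (.leaf X758) (.leaf X0))) (.node (.node (.leaf X502) (.leaf X0)) (.node (.leaf X1014) (.leaf X0))))))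
def u_14 : DT := (.node (.node (.node (.node (.node (.leaf X14) (.leaf X1038)) (.node (.leaf X526) (.leaf X0))) (.node (.node (.leaf X270) (.leaf X1294)) (.node (.leaf X782) (.leaf X0)))) (.node (.node (.node (.leaf X142) (.leaf X1166)) (.node (.leaf X654) (.leaf X0))) (.node (.node (.leaf X398) (.leaf X1422)) (.node (.leaf X910) (.leaf X0))))) (.node (.node (.node (.node (.leaf X78) (.leaf X1102)) (.node (.leaf X590) (.leaf X0))) (.node (.node (.leaf X334) (.leaf X1358)) (.node (.leaf X846) (.leaf X0)))) (.node (.node (.node (.leaf X206) (.leaf X1230)) (.node (.leaf X718) (.leaf X0))) (.node (.node (.leaf X462) (.leaf X1486)) (.node (.leaf X974) (.leaf X0))))))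
def u_46 : DT := (.node (.node (.node (.node (.node (.leaf X46) (.leaf X1070)) (.node (.leaf X558) (.leaf X0))) (.node (.node (.leaf X302) (.leaf X1326)) (.node (.leaf X814) (.leaf X0)))) (.node (.node (.node (.leaf X174) (.leaf X1198)) (.node (.leaf X686) (.leaf X0))) (.node (.node (.leaf X430) (.leaf X1454)) (.node (.leaf X942) (.leaf X0))))) (.node (.node (.node (.node (.leaf X110) (.leaf X1134)) (.node (.leaf X622) (.leaf X0))) (.node (.node (.leaf X366) (.leaf X1390)) (.node (.leaf X878) (.leaf X0)))) (.node (.node (.node (.leaf X238) (.leaf X1262)) (.node (.leaf X750) (.leaf X0))) (.node (.node (.leaf X494) (.leaf X1518)) (.node (.leaf X1006) (.leaf X0))))))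
def u_30 : DT := (.node (.node (.node (.node (.node (.leaf X30) (.leaf X1054)) (.node (.leaf X542) (.leaf X0))) (.node (.node (.leaf X286) (.leaf X1310)) (.node (.leaf X798) (.leaf X0)))) (.node (.node (.node (.leaf X158) (.leaf X1182)) (.node (.leaf X670) (.leaf X0))) (.node (.node (.leaf X414) (.leaf X1438)) (.node (.leaf X926) (.leaf X0))))) (.node (.node (.node (.node (.leaf X94) (.leaf X1118)) (.node (.leaf X606) (.leaf X0))) (.node (.node (.leaf X350) (.leaf X1374)) (.node (.leaf X862) (.leaf X0)))) (.node (.node (.node (.leaf X222) (.leaf X1246)) (.node (.leaf X734) (.leaf X0))) (.node (.node (.leaf X478) (.leaf X1502)) (.node (.leaf X990) (.leaf X0))))))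
def u_62 : DT := (.node (.node (.node (.node (.node (.leaf X62) (.leaf X1086)) (.node (.leaf X574) (.leaf X0))) (.node (.node (.leaf X318) (.leaf X1342)) (.node (.leaf X830) (.leaf X0)))) (.node (.node (.node (.leaf X190) (.leaf X1214)) (.node (.leaf X702) (.leaf X0))) (.node (.node (.leaf X446) (.leaf X1470)) (.node (.leaf X958) (.leaf X0))))) (.node (.node (.node (.node (.leaf X126) (.leaf X1150)) (.node (.leaf X638) (.leaf X0))) (.node (.node (.leaf X382) (.leaf X1406)) (.node (.leaf X894) (.leaf X0)))) (.node (.node (.node (.leaf X254) (.leaf X1278)) (.node (.leaf X766) (.leaf X0))) (.node (.node (.leaf X510) (.leaf X0)) (.node (.leaf X1022) (.leaf X0))))))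
def u_1 : DT := (.node (.node (.node (.node (.node (.leaf X1) (.leaf X1025)) (.node (.leaf X513) (.leaf X0))) (.node (.node (.leaf X257) (.leaf X1281)) (.node (.leaf X769) (.leaf X0)))) (.node (.node (.node (.leaf X129) (.leaf X1153)) (.node (.leaf X641) (.leaf X0))) (.node (.node (.leaf X385) (.leaf X1409)) (.node (.leaf X897) (.leaf X0))))) (.node (.node (.node (.node (.leaf X65) (.leaf X1089)) (.node (.leaf X577) (.leaf X0))) (.node (.node (.leaf X321) (.leaf X1345)) (.node (.leaf X833) (.leaf X0)))) (.node (.node (.node (.leaf X193) (.leaf X1217)) (.node (.leaf X705) (.leaf X0))) (.node (.node (.leaf X449) (.leaf X1473)) (.node (.leaf X961) (.leaf X0))))))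
def u_33 : DT := (.node (.node (.node (.node (.node (.leaf X33) (.leaf X1057)) (.node (.leaf X545) (.leaf X0))) (.node (.node (.leaf X289) (.leaf X1313)) (.node (.leaf X801) (.leaf X0)))) (.node (.node (.node (.leaf X161) (.leaf X1185)) (.node (.leaf X673) (.leaf X0))) (.node (.node (.leaf X417) (.leaf X1441)) (.node (.leaf X929) (.leaf X0))))) (.node (.node (.node (.node (.leaf X97) (.leaf X1121)) (.node (.leaf X609) (.leaf X0))) (.node (.node (.leaf X353) (.leaf X1377)) (.node (.leaf X865) (.leaf X0)))) (.node (.node (.node (.leaf X225) (.leaf X1249)) (.node (.leaf X737) (.leaf X0))) (.node (.node (.leaf X481) (.leaf X1505)) (.node (.leaf X993) (.leaf X0))))))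
def u_17 : DT := (.node (.node (.node (.node (.node (.leaf X17) (.leaf X1041)) (.node (.leaf X529) (.leaf X0))) (.node (.node (.leaf X273) (.leaf X1297)) (.node (.leaf X785) (.leaf X0)))) (.node (.node (.node (.leaf X145) (.leaf X1169)) (.node (.leaf X657) (.leaf X0))) (.node (.node (.leaf X401) (.leaf X1425)) (.node (.leaf X913) (.leaf X0))))) (.node (.node (.node (.node (.leaf X81) (.leaf X1105)) (.node (.leaf X593) (.leaf X0))) (.node (.node (.leaf X337) (.leaf X1361)) (.node (.leaf X849) (.leaf X0)))) (.node (.node (.node (.leaf X209) (.leaf X1233)) (.node (.leaf X721) (.leaf X0))) (.node (.node (.leaf X465) (.leaf X1489)) (.node (.leaf X977) (.leaf X0))))))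
def u_49 : DT := (.node (.node (.node (.node (.node (.leaf X49) (.leaf X1073)) (.node (.leaf X561) (.leaf X0))) (.node (.node (.leaf X305) (.leaf X1329)) (.node (.leaf X817) (.leaf X0)))) (.node (.node (.node (.leaf X177) (.leaf X1201)) (.node (.leaf X689) (.leaf X0))) (.node (.node (.leaf X433) (.leaf X1457)) (.node (.leaf X945) (.leaf X0))))) (.node (.node (.node (.node (.leaf X113) (.leaf X1137)) (.node (.leaf X625) (.leaf X0))) (.node (.node (.leaf X369) (.leaf X1393)) (.node (.leaf X881) (.leaf X0)))) (.node (.node (.node (.leaf X241) (.leaf X1265)) (.node (.leaf X753) (.leaf X0))) (.node (.node (.leaf X497) (.leaf X1521)) (.node (.leaf X1009) (.leaf X0))))))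
def u_9 : DT := (.node (.node (.node (.node (.node (.leaf X9) (.leaf X1033)) (.node (.leaf X521) (.leaf X0))) (.node (.node (.leaf X265) (.leaf X1289)) (.node (.leaf X777) (.leaf X0)))) (.node (.node (.node (.leaf X137) (.leaf X1161)) (.node (.leaf X649) (.leaf X0))) (.node (.node (.leaf X393) (.leaf X1417)) (.node (.leaf X905) (.leaf X0))))) (.node (.node (.node (.node (.leaf X73) (.leaf X1097)) (.node (.leaf X585) (.leaf X0))) (.node (.node (.leaf X329) (.leaf X1353)) (.node (.leaf X841) (.leaf X0)))) (.node (.node (.node (.leaf X201) (.leaf X1225)) (.node (.leaf X713) (.leaf X0))) (.node (.node (.leaf X457) (.leaf X1481)) (.node (.leaf X969) (.leaf X0))))))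
def u_41 : DT := (.node (.node (.node (.node (.node (.leaf X41) (.leaf X1065)) (.node (.leaf X553) (.leaf X0))) (.node (.node (.leaf X297) (.leaf X1321)) (.node (.leaf X809) (.leaf X0)))) (.node (.node (.node (.leaf X169) (.leaf X1193)) (.node (.leaf X681) (.leaf X0))) (.node (.node (.leaf X425) (.leaf X1449)) (.node (.leaf X937) (.leaf X0))))) (.node (.node (.node (.node (.leaf X105) (.leaf X1129)) (.node (.leaf X617) (.leaf X0))) (.node (.node (.leaf X361) (.leaf X1385)) (.node (.leaf X873) (.leaf X0)))) (.node (.node (.node (.leaf X233) (.leaf X1257)) (.node (.leaf X745) (.leaf X0))) (.node (.node (.leaf X489) (.leaf X1513)) (.node (.leaf X1001) (.leaf X0))))))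
def u_25 : DT := (.node (.node (.node (.node (.node (.leaf X25) (.leaf X1049)) (.node (.leaf X537) (.leaf X0))) (.node (.node (.leaf X281) (.leaf X1305)) (.node (.leaf X793) (.leaf X0)))) (.node (.node (.node (.leaf X153) (.leaf X1177)) (.node (.leaf X665) (.leaf X0))) (.node (.node (.leaf X409) (.leaf X1433)) (.node (.leaf X921) (.leaf X0))))) (.node (.node (.node (.node (.leaf X89) (.leaf X1113)) (.node (.leaf X601) (.leaf X0))) (.node (.node (.leaf X345) (.leaf X1369)) (.node (.leaf X857) (.leaf X0)))) (.node (.node (.node (.leaf X217) (.leaf X1241)) (.node (.leaf X729) (.leaf X0))) (.node (.node (.leaf X473) (.leaf X1497)) (.node (.leaf X985) (.leaf X0))))))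
def u_57 : DT := (.node (.node (.node (.node (.node (.leaf X57) (.leaf X1081)) (.node (.leaf X569) (.leaf X0))) (.node (.node (.leaf X313) (.leaf X1337)) (.node (.leaf X825) (.leaf X0)))) (.node (.node (.node (.leaf X185) (.leaf X1209)) (.node (.leaf X697) (.leaf X0))) (.node (.node (.leaf X441) (.leaf X1465)) (.node (.leaf X953) (.leaf X0))))) (.node (.node (.node (.node (.leaf X121) (.leaf X1145)) (.node (.leaf X633) (.leaf X0))) (.node (.node (.leaf X377) (.leaf X1401)) (.node (.leaf X889) (.leaf X0)))) (.node (.node (.node (.leaf X249) (.leaf X1273)) (.node (.leaf X761) (.leaf X0))) (.node (.node (.leaf X505) (.leaf X0)) (.node (.leaf X1017) (.leaf X0))))))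
def u_5 : DT := (.node (.node (.node (.node (.node (.leaf X5) (.leaf X1029)) (.node (.leaf X517) (.leaf X0))) (.node (.node (.leaf X261) (.leaf X1285)) (.node (.leaf X773) (.leaf X0)))) (.node (.node (.node (.leaf X133) (.leaf X1157)) (.node (.leaf X645) (.leaf X0))) (.node (.node (.leaf X389) (.leaf X1413)) (.node (.leaf X901) (.leaf X0))))) (.node (.node (.node (.node (.leaf X69) (.leaf X1093)) (.node (.leaf X581) (.leaf X0))) (.node (.node (.leaf X325) (.leaf X1349)) (.node (.leaf X837) (.leaf X0)))) (.node (.node (.node (.leaf X197) (.leaf X1221)) (.node (.leaf X709) (.leaf X0))) (.node (.node (.leaf X453) (.leaf X1477)) (.node (.leaf X965) (.leaf X0))))))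
def u_37 : DT := (.node (.node (.node (.node (.node (.leaf X37) (.leaf X1061)) (.node (.leaf X549) (.leaf X0))) (.node (.node (.leaf X293) (.leaf X1317)) (.node (.leaf X805) (.leaf X0)))) (.node (.node (.node (.leaf X165) (.leaf X1189)) (.node (.leaf X677) (.leaf X0))) (.node (.node (.leaf X421) (.leaf X1445)) (.node (.leaf X933) (.leaf X0))))) (.node (.node (.node (.node (.leaf X101) (.leaf X1125)) (.node (.leaf X613) (.leaf X0))) (.node (.node (.leaf X357) (.leaf X1381)) (.node (.leaf X869) (.leaf X0)))) (.node (.node (.node (.leaf X229) (.leaf X1253)) (.node (.leaf X741) (.leaf X0))) (.node (.node (.leaf X485) (.leaf X1509)) (.node (.leaf X997) (.leaf X0))))))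
def u_21 : DT := (.node (.node (.node (.node (.node (.leaf X21) (.leaf X1045)) (.node (.leaf X533) (.leaf X0))) (.node (.node (.leaf X277) (.leaf X1301)) (.node (.leaf X789) (.leaf X0)))) (.node (.node (.node (.leaf X149) (.leaf X1173)) (.node (.leaf X661) (.leaf X0))) (.node (.node (.leaf X405) (.leaf X1429)) (.node (.leaf X917) (.leaf X0))))) (.node (.node (.node (.node (.leaf X85) (.leaf X1109)) (.node (.leaf X597) (.leaf X0))) (.node (.node (.leaf X341) (.leaf X1365)) (.node (.leaf X853) (.leaf X0)))) (.node (.node (.node (.leaf X213) (.leaf X1237)) (.node (.leaf X725) (.leaf X0))) (.node (.node (.leaf X469) (.leaf X1493)) (.node (.leaf X981) (.leaf X0))))))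
def u_53 : DT := (.node (.node (.node (.node (.node (.leaf X53) (.leaf X1077)) (.node (.leaf X565) (.leaf X0))) (.node (.node (.leaf X309) (.leaf X1333)) (.node (.leaf X821) (.leaf X0)))) (.node (.node (.node (.leaf X181) (.leaf X1205)) (.node (.leaf X693) (.leaf X0))) (.node (.node (.leaf X437) (.leaf X1461)) (.node (.leaf X949) (.leaf X0))))) (.node (.node (.node (.node (.leaf X117) (.leaf X1141)) (.node (.leaf X629) (.leaf X0))) (.node (.node (.leaf X373) (.leaf X1397)) (.node (.leaf X885) (.leaf X0)))) (.node (.node (.node (.leaf X245) (.leaf X1269)) (.node (.leaf X757) (.leaf X0))) (.node (.node (.leaf X501) (.leaf X0)) (.node (.leaf X1013) (.leaf X0))))))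
def u_13 : DT := (.node (.node (.node (.node (.node (.leaf X13) (.leaf X1037)) (.node (.leaf X525) (.leaf X0))) (.node (.node (.leaf X269) (.leaf X1293)) (.node (.leaf X781) (.leaf X0)))) (.node (.node (.node (.leaf X141) (.leaf X1165)) (.node (.leaf X653) (.leaf X0))) (.node (.node (.leaf X397) (.leaf X1421)) (.node (.leaf X909) (.leaf X0))))) (.node (.node (.node (.node (.leaf X77) (.leaf X1101)) (.node (.leaf X589) (.leaf X0))) (.node (.node (.leaf X333) (.leaf X1357)) (.node (.leaf X845) (.leaf X0)))) (.node (.node (.node (.leaf X205) (.leaf X1229)) (.node (.leaf X717) (.leaf X0))) (.node (.node (.leaf X461) (.leaf X1485)) (.node (.leaf X973) (.leaf X0))))))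
def u_45 : DT := (.node (.node (.node (.node (.node (.leaf X45) (.leaf X1069)) (.node (.leaf X557) (.leaf X0))) (.node (.node (.leaf X301) (.leaf X1325)) (.node (.leaf X813) (.leaf X0)))) (.node (.node (.node (.leaf X173) (.leaf X1197)) (.node (.leaf X685) (.leaf X0))) (.node (.node (.leaf X429) (.leaf X1453)) (.node (.leaf X941) (.leaf X0))))) (.node (.node (.node (.node (.leaf X109) (.leaf X1133)) (.node (.leaf X621) (.leaf X0))) (.node (.node (.leaf X365) (.leaf X1389)) (.node (.leaf X877) (.leaf X0)))) (.node (.node (.node (.leaf X237) (.leaf X1261)) (.node (.leaf X749) (.leaf X0))) (.node (.node (.leaf X493) (.leaf X1517)) (.node (.leaf X1005) (.leaf X0))))))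
def u_29 : DT := (.node (.node (.node (.node (.node (.leaf X29) (.leaf X1053)) (.node (.leaf X541) (.leaf X0))) (.node (.node (.leaf X285) (.leaf X1309)) (.node (.leaf X797) (.leaf X0)))) (.node (.node (.node (.leaf X157) (.leaf X1181)) (.node (.leaf X669) (.leaf X0))) (.node (.node (.leaf X413) (.leaf X1437)) (.node (.leaf X925) (.leaf X0))))) (.node (.node (.node (.node (.leaf X93) (.leaf X1117)) (.node (.leaf X605) (.leaf X0))) (.node (.node (.leaf X349) (.leaf X1373)) (.node (.leaf X861) (.leaf X0)))) (.node (.node (.node (.leaf X221) (.leaf X1245)) (.node (.leaf X733) (.leaf X0))) (.node (.node (.leaf X477) (.leaf X1501)) (.node (.leaf X989) (.leaf X0))))))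
def u_61 : DT := (.node (.node (.node (.node (.node (.leaf X61) (.leaf X1085)) (.node (.leaf X573) (.leaf X0))) (.node (.node (.leaf X317) (.leaf X1341)) (.node (.leaf X829) (.leaf X0)))) (.node (.node (.node (.leaf X189) (.leaf X1213)) (.node (.leaf X701) (.leaf X0))) (.node (.node (.leaf X445) (.leaf X1469)) (.node (.leaf X957) (.leaf X0))))) (.node (.node (.node (.node (.leaf X125) (.leaf X1149)) (.node (.leaf X637) (.leaf X0))) (.node (.node (.leaf X381) (.leaf X1405)) (.node (.leaf X893) (.leaf X0)))) (.node (.node (.node (.leaf X253) (.leaf X1277)) (.node (.leaf X765) (.leaf X0))) (.node (.node (.leaf X509) (.leaf X0)) (.node (.leaf X1021) (.leaf X0))))))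
def u_3 : DT := (.node (.node (.node (.node (.node (.leaf X3) (.leaf X1027)) (.node (.leaf X515) (.leaf X0))) (.node (.node (.leaf X259) (.leaf X1283)) (.node (.leaf X771) (.leaf X0)))) (.node (.node (.node (.leaf X131) (.leaf X1155)) (.node (.leaf X643) (.leaf X0))) (.node (.node (.leaf X387) (.leaf X1411)) (.node (.leaf X899) (.leaf X0))))) (.node (.node (.node (.node (.leaf X67) (.leaf X1091)) (.node (.leaf X579) (.leaf X0))) (.node (.node (.leaf X323) (.leaf X1347)) (.node (.leaf X835) (.leaf X0)))) (.node (.node (.node (.leaf X195) (.leaf X1219)) (.node (.leaf X707) (.leaf X0))) (.node (.node (.leaf X451) (.leaf X1475)) (.node (.leaf X963) (.leaf X0))))))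
def u_35 : DT := (.node (.node (.node (.node (.node (.leaf X35) (.leaf X1059)) (.node (.leaf X547) (.leaf X0))) (.node (.node (.leaf X291) (.leaf X1315)) (.node (.leaf X803) (.leaf X0)))) (.node (.node (.node (.leaf X163) (.leaf X1187)) (.node (.leaf X675) (.leaf X0))) (.node (.node (.leaf X419) (.leaf X1443)) (.node (.leaf X931) (.leaf X0))))) (.node (.node (.node (.node (.leaf X99) (.leaf X1123)) (.node (.leaf X611) (.leaf X0))) (.node (.node (.leaf X355) (.leaf X1379)) (.node (.leaf X867) (.leaf X0)))) (.node (.node (.node (.leaf X227) (.leaf X1251)) (.node (.leaf X739) (.leaf X0))) (.node (.node (.leaf X483) (.leaf X1507)) (.node (.leaf X995) (.leaf X0))))))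
def u_19 : DT := (.node (.node (.node (.node (.node (.leaf X19) (.leaf X1043)) (.node (.leaf X531) (.leaf X0))) (.node (.node (.leaf X275) (.leaf X1299)) (.node (.leaf X787) (.leaf X0)))) (.node (.node (.node (.leaf X147) (.leaf X1171)) (.node (.leaf X659) (.leaf X0))) (.node (.node (.leaf X403) (.leaf X1427)) (.node (.leaf X915) (.leaf X0))))) (.node (.node (.node (.node (.leaf X83) (.leaf X1107)) (.node (.leaf X595) (.leaf X0))) (.node (.node (.leaf X339) (.leaf X1363)) (.node (.leaf X851) (.leaf X0)))) (.node (.node (.node (.leaf X211) (.leaf X1235)) (.node (.leaf X723) (.leaf X0))) (.node (.node (.leaf X467) (.leaf X1491)) (.node (.leaf X979) (.leaf X0))))))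
def u_51 : DT := (.node (.node (.node (.node (.node (.leaf X51) (.leaf X1075)) (.node (.leaf X563) (.leaf X0))) (.node (.node (.leaf X307) (.leaf X1331)) (.node (.leaf X819) (.leaf X0)))) (.node (.node (.node (.leaf X179) (.leaf X1203)) (.node (.leaf X691) (.leaf X0))) (.node (.node (.leaf X435) (.leaf X1459)) (.node (.leaf X947) (.leaf X0))))) (.node (.node (.node (.node (.leaf X115) (.leaf X1139)) (.node (.leaf X627) (.leaf X0))) (.node (.node (.leaf X371) (.leaf X1395)) (.node (.leaf X883) (.leaf X0)))) (.node (.node (.node (.leaf X243) (.leaf X1267)) (.node (.leaf X755) (.leaf X0))) (.node (.node (.leaf X499) (.leaf X0)) (.node (.leaf X1011) (.leaf X0))))))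
def u_11 : DT := (.node (.node (.node (.node (.node (.leaf X11) (.leaf X1035)) (.node (.leaf X523) (.leaf X0))) (.node (.node (.leaf X267) (.leaf X1291)) (.node (.leaf X779) (.leaf X0)))) (.node (.node (.node (.leaf X139) (.leaf X1163)) (.node (.leaf X651) (.leaf X0))) (.node (.node (.leaf X395) (.leaf X1419)) (.node (.leaf X907) (.leaf X0))))) (.node (.node (.node (.node (.leaf X75) (.leaf X1099)) (.node (.leaf X587) (.leaf X0))) (.node (.node (.leaf X331) (.leaf X1355)) (.node (.leaf X843) (.leaf X0)))) (.node (.node (.node (.leaf X203) (.leaf X1227)) (.node (.leaf X715) (.leaf X0))) (.node (.node (.leaf X459) (.leaf X1483)) (.node (.leaf X971) (.leaf X0))))))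
def u_43 : DT := (.node (.node (.node (.node (.node (.leaf X43) (.leaf X1067)) (.node (.leaf X555) (.leaf X0))) (.node (.node (.leaf X299) (.leaf X1323)) (.node (.leaf X811) (.leaf X0)))) (.node (.node (.node (.leaf X171) (.leaf X1195)) (.node (.leaf X683) (.leaf X0))) (.node (.node (.leaf X427) (.leaf X1451)) (.node (.leaf X939) (.leaf X0))))) (.node (.node (.node (.node (.leaf X107) (.leaf X1131)) (.node (.leaf X619) (.leaf X0))) (.node (.node (.leaf X363) (.leaf X1387)) (.node (.leaf X875) (.leaf X0)))) (.node (.node (.node (.leaf X235) (.leaf X1259)) (.node (.leaf X747) (.leaf X0))) (.node (.node (.leaf X491) (.leaf X1515)) (.node (.leaf X1003) (.leaf X0))))))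
def u_27 : DT := (.node (.node (.node (.node (.node (.leaf X27) (.leaf X1051)) (.node (.leaf X539) (.leaf X0))) (.node (.node (.leaf X283) (.leaf X1307)) (.node (.leaf X795) (.leaf X0)))) (.node (.node (.node (.leaf X155) (.leaf X1179)) (.node (.leaf X667) (.leaf X0))) (.node (.node (.leaf X411) (.leaf X1435)) (.node (.leaf X923) (.leaf X0))))) (.node (.node (.node (.node (.leaf X91) (.leaf X1115)) (.node (.leaf X603) (.leaf X0))) (.node (.node (.leaf X347) (.leaf X1371)) (.node (.leaf X859) (.leaf X0)))) (.node (.node (.node (.leaf X219) (.leaf X1243)) (.node (.leaf X731) (.leaf X0))) (.node (.node (.leaf X475) (.leaf X1499)) (.node (.leaf X987) (.leaf X0))))))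
def u_59 : DT := (.node (.node (.node (.node (.node (.leaf X59) (.leaf X1083)) (.node (.leaf X571) (.leaf X0))) (.node (.node (.leaf X315) (.leaf X1339)) (.node (.leaf X827) (.leaf X0)))) (.node (.node (.node (.leaf X187) (.leaf X1211)) (.node (.leaf X699) (.leaf X0))) (.node (.node (.leaf X443) (.leaf X1467)) (.node (.leaf X955) (.leaf X0))))) (.node (.node (.node (.node (.leaf X123) (.leaf X1147)) (.node (.leaf X635) (.leaf X0))) (.node (.node (.leaf X379) (.leaf X1403)) (.node (.leaf X891) (.leaf X0)))) (.node (.node (.node (.leaf X251) (.leaf X1275)) (.node (.leaf X763) (.leaf X0))) (.node (.node (.leaf X507) (.leaf X0)) (.node (.leaf X1019) (.leaf X0))))))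
def u_7 : DT := (.node (.node (.node (.node (.node (.leaf X7) (.leaf X1031)) (.node (.leaf X519) (.leaf X0))) (.node (.node (.leaf X263) (.leaf X1287)) (.node (.leaf X775) (.leaf X0)))) (.node (.node (.node (.leaf X135) (.leaf X1159)) (.node (.leaf X647) (.leaf X0))) (.node (.node (.leaf X391) (.leaf X1415)) (.node (.leaf X903) (.leaf X0))))) (.node (.node (.node (.node (.leaf X71) (.leaf X1095)) (.node (.leaf X583) (.leaf X0))) (.node (.node (.leaf X327) (.leaf X1351)) (.node (.leaf X839) (.leaf X0)))) (.node (.node (.node (.leaf X199) (.leaf X1223)) (.node (.leaf X711) (.leaf X0))) (.node (.node (.leaf X455) (.leaf X1479)) (.node (.leaf X967) (.leaf X0))))))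
def u_39 : DT := (.node (.node (.node (.node (.node (.leaf X39) (.leaf X1063)) (.node (.leaf X551) (.leaf X0))) (.node (.node (.leaf X295) (.leaf X1319)) (.node (.leaf X807) (.leaf X0)))) (.node (.node (.node (.leaf X167) (.leaf X1191)) (.node (.leaf X679) (.leaf X0))) (.node (.node (.leaf X423) (.leaf X1447)) (.node (.leaf X935) (.leaf X0))))) (.node (.node (.node (.node (.leaf X103) (.leaf X1127)) (.node (.leaf X615) (.leaf X0))) (.node (.node (.leaf X359) (.leaf X1383)) (.node (.leaf X871) (.leaf X0)))) (.node (.node (.node (.leaf X231) (.leaf X1255)) (.node (.leaf X743) (.leaf X0))) (.node (.node (.leaf X487) (.leaf X1511)) (.node (.leaf X999) (.leaf X0))))))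
def u_23 : DT := (.node (.node (.node (.node (.node (.leaf X23) (.leaf X1047)) (.node (.leaf X535) (.leaf X0))) (.node (.node (.leaf X279) (.leaf X1303)) (.node (.leaf X791) (.leaf X0)))) (.node (.node (.node (.leaf X151) (.leaf X1175)) (.node (.leaf X663) (.leaf X0))) (.node (.node (.leaf X407) (.leaf X1431)) (.node (.leaf X919) (.leaf X0))))) (.node (.node (.node (.node (.leaf X87) (.leaf X1111)) (.node (.leaf X599) (.leaf X0))) (.node (.node (.leaf X343) (.leaf X1367)) (.node (.leaf X855) (.leaf X0)))) (.node (.node (.node (.leaf X215) (.leaf X1239)) (.node (.leaf X727) (.leaf X0))) (.node (.node (.leaf X471) (.leaf X1495)) (.node (.leaf X983) (.leaf X0))))))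
def u_55 : DT := (.node (.node (.node (.node (.node (.leaf X55) (.leaf X1079)) (.node (.leaf X567) (.leaf X0))) (.node (.node (.leaf X311) (.leaf X1335)) (.node (.leaf X823) (.leaf X0)))) (.node (.node (.node (.leaf X183) (.leaf X1207)) (.node (.leaf X695) (.leaf X0))) (.node (.node (.leaf X439) (.leaf X1463)) (.node (.leaf X951) (.leaf X0))))) (.node (.node (.node (.node (.leaf X119) (.leaf X1143)) (.node (.leaf X631) (.leaf X0))) (.node (.node (.leaf X375) (.leaf X1399)) (.node (.leaf X887) (.leaf X0)))) (.node (.node (.node (.leaf X247) (.leaf X1271)) (.node (.leaf X759) (.leaf X0))) (.node (.node (.leaf X503) (.leaf X0)) (.node (.leaf X1015) (.leaf X0))))))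
def u_15 : DT := (.node (.node (.node (.node (.node (.leaf X15) (.leaf X1039)) (.node (.leaf X527) (.leaf X0))) (.node (.node (.leaf X271) (.leaf X1295)) (.node (.leaf X783) (.leaf X0)))) (.node (.node (.node (.leaf X143) (.leaf X1167)) (.node (.leaf X655) (.leaf X0))) (.node (.node (.leaf X399) (.leaf X1423)) (.node (.leaf X911) (.leaf X0))))) (.node (.node (.node (.node (.leaf X79) (.leaf X1103)) (.node (.leaf X591) (.leaf X0))) (.node (.node (.leaf X335) (.leaf X1359)) (.node (.leaf X847) (.leaf X0)))) (.node (.node (.node (.leaf X207) (.leaf X1231)) (.node (.leaf X719) (.leaf X0))) (.node (.node (.leaf X463) (.leaf X1487)) (.node (.leaf X975) (.leaf X0))))))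
def u_47 : DT := (.node (.node (.node (.node (.node (.leaf X47) (.leaf X1071)) (.node (.leaf X559) (.leaf X0))) (.node (.node (.leaf X303) (.leaf X1327)) (.node (.leaf X815) (.leaf X0)))) (.node (.node (.node (.leaf X175) (.leaf X1199)) (.node (.leaf X687) (.leaf X0))) (.node (.node (.leaf X431) (.leaf X1455)) (.node (.leaf X943) (.leaf X0))))) (.node (.node (.node (.node (.leaf X111) (.leaf X1135)) (.node (.leaf X623) (.leaf X0))) (.node (.node (.leaf X367) (.leaf X1391)) (.node (.leaf X879) (.leaf X0)))) (.node (.node (.node (.leaf X239) (.leaf X1263)) (.node (.leaf X751) (.leaf X0))) (.node (.node (.leaf X495) (.leaf X1519)) (.node (.leaf X1007) (.leaf X0))))))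
def u_31 : DT := (.node (.node (.node (.node (.node (.leaf X31) (.leaf X1055)) (.node (.leaf X543) (.leaf X0))) (.node (.node (.leaf X287) (.leaf X1311)) (.node (.leaf X799) (.leaf X0)))) (.node (.node (.node (.leaf X159) (.leaf X1183)) (.node (.leaf X671) (.leaf X0))) (.node (.node (.leaf X415) (.leaf X1439)) (.node (.leaf X927) (.leaf X0))))) (.node (.node (.node (.node (.leaf X95) (.leaf X1119)) (.node (.leaf X607) (.leaf X0))) (.node (.node (.leaf X351) (.leaf X1375)) (.node (.leaf X863) (.leaf X0)))) (.node (.node (.node (.leaf X223) (.leaf X1247)) (.node (.leaf X735) (.leaf X0))) (.node (.node (.leaf X479) (.leaf X1503)) (.node (.leaf X991) (.leaf X0))))))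
def u_63 : DT := (.node (.node (.node (.node (.node (.leaf X63) (.leaf X1087)) (.node (.leaf X575) (.leaf X0))) (.node (.node (.leaf X319) (.leaf X1343)) (.node (.leaf X831) (.leaf X0)))) (.node (.node (.node (.leaf X191) (.leaf X1215)) (.node (.leaf X703) (.leaf X0))) (.node (.node (.leaf X447) (.leaf X1471)) (.node (.leaf X959) (.leaf X0))))) (.node (.node (.node (.node (.leaf X127) (.leaf X1151)) (.node (.leaf X639) (.leaf X0))) (.node (.node (.leaf X383) (.leaf X1407)) (.node (.leaf X895) (.leaf X0)))) (.node (.node (.node (.leaf X255) (.leaf X1279)) (.node (.leaf X767) (.leaf X0))) (.node (.node (.leaf X511) (.leaf X0)) (.node (.leaf X1023) (.leaf X0))))))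

/-- Tree. -/
def u : DT := (.node (.node (.node (.node (.node (.node u_0 u_32) (.node u_16 u_48)) (.node (.node u_8 u_40) (.node u_24 u_56))) (.node (.node (.node u_4 u_36) (.node u_20 u_52)) (.node (.node u_12 u_44) (.node u_28 u_60)))) (.node (.node (.node (.node u_2 u_34) (.node u_18 u_50)) (.node (.node u_10 u_42) (.node u_26 u_58))) (.node (.node (.node u_6 u_38) (.node u_22 u_54)) (.node (.node u_14 u_46) (.node u_30 u_62))))) (.node (.node (.node (.node (.node u_1 u_33) (.node u_17 u_49)) (.node (.node u_9 u_41) (.node u_25 u_57))) (.node (.node (.node u_5 u_37) (.node u_21 u_53)) (.node (.node u_13 u_45) (.node u_29 u_61)))) (.node (.node (.node (.node u_3 u_35) (.node u_19 u_51)) (.node (.node u_11 u_43) (.node u_27 u_59))) (.node (.node (.node u_7 u_39) (.node u_23 u_55)) (.node (.node u_15 u_47) (.node u_31 u_63))))))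
def vt_0 : DT := (.node (.node (.node (.node (.node (.leaf V0) (.leaf V32)) (.node (.leaf V16) (.leaf V0))) (.node (.node (.leaf V8) (.leaf V0)) (.node (.leaf V24) (.leaf V0)))) (.node (.node (.node (.leaf V4) (.leaf V36)) (.node (.leaf V20) (.leaf V0))) (.node (.node (.leaf V12) (.leaf V0)) (.node (.leaf V28) (.leaf V0))))) (.node (.node (.node (.node (.leaf V2) (.leaf V34)) (.node (.leaf V18) (.leaf V0))) (.node (.node (.leaf V10) (.leaf V0)) (.node (.leaf V26) (.leaf V0)))) (.node (.node (.node (.leaf V6) (.leaf V38)) (.node (.leaf V22) (.leaf V0))) (.node (.node (.leaf V14) (.leaf V0)) (.node (.leaf V30) (.leaf V0))))))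
def vt_1 : DT := (.node (.node (.node (.node (.node (.leaf V1) (.leaf V33)) (.node (.leaf V17) (.leaf V0))) (.node (.node (.leaf V9) (.leaf V0)) (.node (.leaf V25) (.leaf V0)))) (.node (.node (.node (.leaf V5) (.leaf V37)) (.node (.leaf V21) (.leaf V0))) (.node (.node (.leaf V13) (.leaf V0)) (.node (.leaf V29) (.leaf V0))))) (.node (.node (.node (.node (.leaf V3) (.leaf V35)) (.node (.leaf V19) (.leaf V0))) (.node (.node (.leaf V11) (.leaf V0)) (.node (.leaf V27) (.leaf V0)))) (.node (.node (.node (.leaf V7) (.leaf V39)) (.node (.leaf V23) (.leaf V0))) (.node (.node (.leaf V15) (.leaf V0)) (.node (.leaf V31) (.leaf V0))))))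

/-- Tree. -/
def vt : DT := (.node vt_0 vt_1)

end

end Pool.Agent.Helper58.PLK.A5n
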