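import Pool.Agent.Helper58.PLK.Base
import Pool.Agent.Helper58.PLK.A5n.B0
import Pool.Agent.Helper58.PLK.A5n.B1
import Pool.Agent.Helper58.PLK.A5n.B2
import Pool.Agent.Helper58.PLK.A5n.B3
import Pool.Agent.Helper58.PLK.A5n.B4
import Pool.Agent.Helper58.PLK.A5n.B5
import Pool.Agent.Helper58.PLK.A5n.S0
import Pool.Agent.Helper58.PLK.A5n.S1
import Pool.Agent.Helper58.PLK.A5n.S2
import Pool.Agent.Helper58.PLK.A5n.S3
import Pool.Agent.Helper58.PLK.A5n.S4
import Pool.Agent.Helper58.PLK.A5n.S5
import Pool.Agent.Helper58.PLK.A5n.S6
import Pool.Agent.Helper58.PLK.A5n.S7
import Pool.Agent.Helper58.PLK.A5n.S8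
import Pool.Agent.Helper58.PLK.A5n.S9
import Pool.Agent.Helper58.PLK.A5n.S10
import Pool.Agent.Helper58.PLK.A5n.S11
import Pool.Agent.Helper58.PLK.A5n.S12
import Pool.Agent.Helper58.PLK.A5n.S13
import Pool.Agent.Helper58.PLK.A5n.S14
import Pool.Agent.Helper58.PLK.A5n.S15
import Pool.Agent.Helper58.PLK.A5n.S16
import Pool.Agent.Helper58.PLK.A5n.S17
import Pool.Agent.Helper58.PLK.A5n.S18
import Pool.Agent.Helper58.PLK.A5n.S19
import Pool.Agent.Helper58.PLK.A5n.S20
import Pool.Agent.Helper58.PLK.A5n.S21
import Pool.Agent.Helper58.PLK.A5n.S22
import Pool.Agent.Helper58.PLK.A5n.S23
import Pool.Agent.Helper58.PLK.A5n.S24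
import Pool.Agent.Helper58.PLK.A5n.S25
import Pool.Agent.Helper58.PLK.A5n.S26
import Pool.Agent.Helper58.PLK.A5n.S27
import Pool.Agent.Helper58.PLK.A5n.S28
import Pool.Agent.Helper58.PLK.A5n.S29
import Pool.Agent.Helper58.PLK.A5n.S30
import Pool.Agent.Helper58.PLK.A5n.S31
import Pool.Agent.Helper58.PLK.A5n.S32

/-!
# The case A5n is impossible (generated)
-/

set_option maxRecDepth 100000

namespace Pool.Agent.Helper58.PLK.A5n

theorem one : Nat.beq (Nat.land (full t u 0) 2) 2 = true := by decide +kernel

theorem last : Nat.beq (full t u (nat_lit 156545)) 1 = true := by decide +kernel

theorem unsat {Se : Nat → Prop} (hgen : ∀ a, ClauseT Se (gen (exA5n ht) ht a)) : False := by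
  have h : Inv (asg Se vt) t u 1 := inv_one one
  replace h := base_seg b0 hgen h
  replace h := base_seg b1 hgen h
  replace h := base_seg b2 hgen h
  replace h := base_seg b3 hgen h
  replace h := base_seg b4 hgen h
  replace h := base_seg b5 hgen h
  replace h := base_seg b6 hgen h
  replace h := base_seg b7 hgen h
  replace h := base_seg b8 hgen h
  replace h := base_seg b9 hgen h
  replace h := base_seg b10 hgen h
  replace h := base_seg b11 hgen h
  replace h := base_seg b12 hgen h
  replace h := base_seg b13 hgen h
  replace h := base_seg b14 hgen h
  replace h := base_seg b15 hgen h
  replace h := base_seg b16 hgen h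
  replace h := base_seg b17 hgen h
  replace h := base_seg b18 hgen h
  replace h := base_seg b19 hgen h
  replace h := base_seg b20 hgen h
  replace h := base_seg b21 hgen h
  replace h := base_seg b22 hgen h
  replace h := base_seg b23 hgen h
  replace h := base_seg b24 hgen h
  replace h := base_seg b25 hgen h
  replace h := base_seg b26 hgen h
  replace h := base_seg b27 hgen h
  replace h := base_seg b28 hgen h
  replace h := base_seg b29 hgen h
  replace h := base_seg b30 hgen h
  replace h := base_seg b31 hgen h
  replace h := base_seg b32 hgen h
  replace h := base_seg b33 hgen h
  replace h := base_seg b34 hgen h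
  replace h := base_seg b35 hgen h
  replace h := base_seg b36 hgen h
  replace h := base_seg b37 hgen h
  replace h := base_seg b38 hgen h
  replace h := base_seg b39 hgen h
  replace h := base_seg b40 hgen h
  replace h := base_seg b41 hgen h
  replace h := base_seg b42 hgen h
  replace h := base_seg b43 hgen h
  replace h := base_seg b44 hgen h
  replace h := base_seg b45 hgen h
  replace h := base_seg b46 hgen h
  replace h := base_seg b47 hgen h
  replace h := base_seg b48 hgen h
  replace h := base_seg b49 hgen h
  replace h := base_seg b50 hgen h
  replace h := base_seg b51 hgen h
  replace h := base_seg b52 hgen h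
  replace h := base_seg b53 hgen h
  replace h := base_seg b54 hgen h
  replace h := base_seg b55 hgen h
  replace h := base_seg b56 hgen h
  replace h := base_seg b57 hgen h
  replace h := base_seg b58 hgen h
  replace h := base_seg b59 hgen h
  replace h := base_seg b60 hgen h
  replace h := base_seg b61 hgen h
  replace h := base_seg b62 hgen h
  replace h := base_seg b63 hgen h
  replace h := base_seg b64 hgen h
  replace h := base_seg b65 hgen h
  replace h := base_seg b66 hgen h
  replace h := base_seg b67 hgen h
  replace h := base_seg b68 hgen h
  replace h := base_seg b69 hgen h
  replace h := seg_sound (by decide) s0 h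
  replace h := seg_sound (by decide) s1 h
  replace h := seg_sound (by decide) s2 h
  replace h := seg_sound (by decide) s3 h
  replace h := seg_sound (by decide) s4 h
  replace h := seg_sound (by decide) s5 h
  replace h := seg_sound (by decide) s6 h
  replace h := seg_sound (by decide) s7 h
  replace h := seg_sound (by decide) s8 h
  replace h := seg_sound (by decide) s9 h
  replace h := seg_sound (by decide) s10 h
  replace h := seg_sound (by decide) s11 h
  replace h := seg_sound (by decide) s12 h
  replace h := seg_sound (by decide) s13 h
  replace h := seg_sound (by decide) s14 h
  replace h := seg_sound (by decide) s15 h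
  replace h := seg_sound (by decide) s16 h
  replace h := seg_sound (by decide) s17 h
  replace h := seg_sound (by decide) s18 h
  replace h := seg_sound (by decide) s19 h
  replace h := seg_sound (by decide) s20 h
  replace h := seg_sound (by decide) s21 h
  replace h := seg_sound (by decide) s22 h
  replace h := seg_sound (by decide) s23 h
  replace h := seg_sound (by decide) s24 h
  replace h := seg_sound (by decide) s25 h
  replace h := seg_sound (by decide) s26 h
  replace h := seg_sound (by decide) s27 h
  replace h := seg_sound (by decide) s28 h
  replace h := seg_sound (by decide) s29 h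
  replace h := seg_sound (by decide) s30 h
  replace h := seg_sound (by decide) s31 h
  replace h := seg_sound (by decide) s32 h
  replace h := seg_sound (by decide) s33 h
  replace h := seg_sound (by decide) s34 h
  replace h := seg_sound (by decide) s35 h
  replace h := seg_sound (by decide) s36 h
  replace h := seg_sound (by decide) s37 h
  replace h := seg_sound (by decide) s38 h
  replace h := seg_sound (by decide) s39 h
  replace h := seg_sound (by decide) s40 h
  replace h := seg_sound (by decide) s41 h
  replace h := seg_sound (by decide) s42 h
  replace h := seg_sound (by decide) s43 h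
  replace h := seg_sound (by decide) s44 h
  replace h := seg_sound (by decide) s45 h
  replace h := seg_sound (by decide) s46 h
  replace h := seg_sound (by decide) s47 h
  replace h := seg_sound (by decide) s48 h
  replace h := seg_sound (by decide) s49 h
  replace h := seg_sound (by decide) s50 h
  replace h := seg_sound (by decide) s51 h
  replace h := seg_sound (by decide) s52 h
  replace h := seg_sound (by decide) s53 h
  replace h := seg_sound (by decide) s54 h
  replace h := seg_sound (by decide) s55 h
  replace h := seg_sound (by decide) s56 h
  replace h := seg_sound (by decide) s57 h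
  replace h := seg_sound (by decide) s58 h
  replace h := seg_sound (by decide) s59 h
  replace h := seg_sound (by decide) s60 h
  replace h := seg_sound (by decide) s61 h
  replace h := seg_sound (by decide) s62 h
  replace h := seg_sound (by decide) s63 h
  replace h := seg_sound (by decide) s64 h
  replace h := seg_sound (by decide) s65 h
  replace h := seg_sound (by decide) s66 h
  replace h := seg_sound (by decide) s67 h
  replace h := seg_sound (by decide) s68 h
  replace h := seg_sound (by decide) s69 h
  replace h := seg_sound (by decide) s70 h
  replace h := seg_sound (by decide) s71 h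
  replace h := seg_sound (by decide) s72 h
  replace h := seg_sound (by decide) s73 h
  replace h := seg_sound (by decide) s74 h
  replace h := seg_sound (by decide) s75 h
  replace h := seg_sound (by decide) s76 h
  replace h := seg_sound (by decide) s77 h
  replace h := seg_sound (by decide) s78 h
  replace h := seg_sound (by decide) s79 h
  replace h := seg_sound (by decide) s80 h
  replace h := seg_sound (by decide) s81 h
  replace h := seg_sound (by decide) s82 h
  replace h := seg_sound (by decide) s83 h
  replace h := seg_sound (by decide) s84 h
  replace h := seg_sound (by decide) s85 h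
  replace h := seg_sound (by decide) s86 h
  replace h := seg_sound (by decide) s87 h
  replace h := seg_sound (by decide) s88 h
  replace h := seg_sound (by decide) s89 h
  replace h := seg_sound (by decide) s90 h
  replace h := seg_sound (by decide) s91 h
  replace h := seg_sound (by decide) s92 h
  replace h := seg_sound (by decide) s93 h
  replace h := seg_sound (by decide) s94 h
  replace h := seg_sound (by decide) s95 h
  replace h := seg_sound (by decide) s96 h
  replace h := seg_sound (by decide) s97 h
  replace h := seg_sound (by decide) s98 h
  replace h := seg_sound (by decide) s99 h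
  replace h := seg_sound (by decide) s100 h
  replace h := seg_sound (by decide) s101 h
  replace h := seg_sound (by decide) s102 h
  replace h := seg_sound (by decide) s103 h
  replace h := seg_sound (by decide) s104 h
  replace h := seg_sound (by decide) s105 h
  replace h := seg_sound (by decide) s106 h
  replace h := seg_sound (by decide) s107 h
  replace h := seg_sound (by decide) s108 h
  replace h := seg_sound (by decide) s109 h
  replace h := seg_sound (by decide) s110 h
  replace h := seg_sound (by decide) s111 h
  replace h := seg_sound (by decide) s112 h
  replace h := seg_sound (by decide) s113 h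
  replace h := seg_sound (by decide) s114 h
  replace h := seg_sound (by decide) s115 h
  replace h := seg_sound (by decide) s116 h
  replace h := seg_sound (by decide) s117 h
  replace h := seg_sound (by decide) s118 h
  replace h := seg_sound (by decide) s119 h
  replace h := seg_sound (by decide) s120 h
  replace h := seg_sound (by decide) s121 h
  replace h := seg_sound (by decide) s122 h
  replace h := seg_sound (by decide) s123 h
  replace h := seg_sound (by decide) s124 h
  replace h := seg_sound (by decide) s125 h
  replace h := seg_sound (by decide) s126 h
  replace h := seg_sound (by decide) s127 h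
  replace h := seg_sound (by decide) s128 h
  exact false_of_inv last h

end Pool.Agent.Helper58.PLK.A5n
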